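import Pool.Agent.R460.SQ.Main

/-! # From the weighted to the plain count -/

set_option autoImplicit false

namespace Pool.Agent.V5helper51.CM

open Finset
open Pool.Agent.R460.SQ (thp)

/-- `|n² + a|` -/
def va (a : ℤ) (n : ℕ) : ℕ := ((n : ℤ) ^ 2 + a).natAbs

/-- the total variation of a function which first increases and then decreases -/
lemma variation {w : ℕ → ℝ} {c : ℝ} {y r : ℕ} (hy : 1 ≤ y) (hw0 : ∀ n ≤ y, 0 ≤ w n) (hwc : ∀ n ≤ y, w n ≤ c)
    (h1 : ∀ n, n + 1 ≤ r → n + 1 ≤ y → w n ≤ w (n + 1)) (h2 : ∀ n, r < n → n + 1 ≤ y → w (n + 1) ≤ w n) :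
    ∑ n ∈ Ico 1 y, |w (n + 1) - w n| ≤ 3 * c := by
  obtain ⟨V, hV⟩ : ∃ V : ℕ → ℝ, V = fun n => if n ≤ r then w n else 3 * c - w n := ⟨_, rfl⟩
  have hc : 0 ≤ c := (hw0 0 (by omega)).trans (hwc 0 (by omega))
  have hstep : ∀ n ∈ Ico 1 y, |w (n + 1) - w n| ≤ V (n + 1) - V n := by
    intro n hn
    rw [mem_Ico] at hn
    rw [hV]
    simp only
    rcases lt_trichotomy n r with h | h | h
    · rw [if_pos (by omega : n + 1 ≤ r), if_pos (by omega : n ≤ r), abs_of_nonneg]
      linarith [h1 n (by omega) (by omega)]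
    · rw [if_neg (by omega : ¬ n + 1 ≤ r), if_pos (by omega : n ≤ r)]
      have a1 := hw0 n (by omega)
      have a2 := hwc n (by omega)
      have a3 := hw0 (n + 1) (by omega)
      have a4 := hwc (n + 1) (by omega)
      rw [abs_le]
      constructor <;> linarith
    · rw [if_neg (by omega : ¬ n + 1 ≤ r), if_neg (by omega : ¬ n ≤ r), abs_of_nonpos]
      · linarith [h2 n (by omega) (by omega)]
      · linarith [h2 n (by omega) (by omega)]
  refine (sum_le_sum hstep).trans ?_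
  rw [sum_Ico_sub V hy]
  have b1 : 0 ≤ V 1 := by
    rw [hV]
    simp only
    split_ifs
    · exact hw0 1 hy
    · linarith [hwc 1 hy]
  have b2 : V y ≤ 3 * c := by
    rw [hV]
    simp only
    split_ifs
    · linarith [hwc y le_rfl]
    · linarith [hw0 y le_rfl]
  linarith

/-- partial summation -/
lemma abel_id (S w : ℕ → ℝ) (hS : S 0 = 0) (y : ℕ) (hy : 1 ≤ y) :
    ∑ n ∈ Icc 1 y, (S n - S (n - 1)) * w n = S y * w y - ∑ n ∈ Ico 1 y, S n * (w (n + 1) - w n) := by
  induction y, hy using Nat.le_induction with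
  | base => simp [hS]
  | succ y hy ih =>
    rw [sum_Icc_succ_top (by omega), ih, sum_Ico_succ_top (by omega)]
    rw [Nat.add_sub_cancel]
    ring

theorem cnt (a : ℤ) (y y0 : ℕ) (H E L : ℝ) (hL : 1 ≤ L) (hH : 0 ≤ H) (hHL : H ≤ L)
    (h2 : ∀ n ≤ y, 2 ≤ ((n : ℤ) ^ 2 + a).natAbs)
    (hva : ∀ n ≤ y, Real.log (((n : ℤ) ^ 2 + a).natAbs : ℝ) ≤ 2 * L)
    (h0 : (y0 : ℝ) * (3 * L) ≤ E)
    (h : ∀ k, y0 ≤ k → k ≤ y → |∑ n ∈ Icc 1 k, thp (((n : ℤ) ^ 2 + a).natAbs) - H * k| ≤ E) :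
    |(((Icc 1 y).filter (fun n : ℕ => (((n : ℤ) ^ 2 + a).natAbs).Prime)).card : ℝ) -
      H * ∑ n ∈ Icc 1 y, 1 / Real.log (((n : ℤ) ^ 2 + a).natAbs : ℝ)| ≤ 6 * E := by
  have hE : 0 ≤ E := le_trans (by positivity) h0
  rcases Nat.eq_zero_or_pos y with rfl | hy
  · simp
    exact hE
  obtain ⟨v, hv⟩ : ∃ v : ℕ → ℕ, v = fun n : ℕ => ((n : ℤ) ^ 2 + a).natAbs := ⟨_, rfl⟩
  have hv2 : ∀ n ≤ y, 2 ≤ v n := by
    intro n hn
    rw [hv]
    exact h2 n hn
  have hvL : ∀ n ≤ y, Real.log (v n : ℝ) ≤ 2 * L := by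
    intro n hn
    rw [hv]
    exact hva n hn
  have hv' : ∀ n : ℕ, ((n : ℤ) ^ 2 + a).natAbs = v n := fun n => by rw [hv]
  simp only [hv'] at h ⊢
  obtain ⟨w, hw⟩ : ∃ w : ℕ → ℝ, w = fun n => 1 / Real.log (v n : ℝ) := ⟨_, rfl⟩
  have hlog : ∀ n ≤ y, Real.log 2 ≤ Real.log (v n : ℝ) := by
    intro n hn
    apply Real.log_le_log (by norm_num)
    exact_mod_cast hv2 n hn
  have hl2 := Real.log_two_gt_d9
  have hlog0 : ∀ n ≤ y, 0 < Real.log (v n : ℝ) := fun n hn => by linarith [hlog n hn]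
  have hw0 : ∀ n ≤ y, 0 ≤ w n := by
    intro n hn
    rw [hw]
    exact (one_div_pos.2 (hlog0 n hn)).le
  have hwc : ∀ n ≤ y, w n ≤ 3 / 2 := by
    intro n hn
    rw [hw]
    simp only
    rw [div_le_iff₀ (hlog0 n hn)]
    linarith [hlog n hn]
  obtain ⟨S, hS⟩ : ∃ S : ℕ → ℝ, S = fun k : ℕ => ∑ n ∈ Icc 1 k, thp (v n) - H * k := ⟨_, rfl⟩
  have hS0 : S 0 = 0 := by
    rw [hS]
    simp
  have hSE : ∀ k ≤ y, |S k| ≤ E := by
    intro k hk
    by_cases hk0 : y0 ≤ k
    · rw [hS]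
      exact h k hk0 hk
    · have hk1 : (k : ℝ) ≤ y0 := by exact_mod_cast (by omega : k ≤ y0)
      have hk2 : (0 : ℝ) ≤ k := Nat.cast_nonneg _
      have b1 : 0 ≤ ∑ n ∈ Icc 1 k, thp (v n) := by
        apply sum_nonneg
        intro n hn
        rw [mem_Icc] at hn
        unfold thp
        split_ifs
        · exact (hlog0 n (by omega)).le
        · exact le_rfl
      have b2 : ∑ n ∈ Icc 1 k, thp (v n) ≤ k * (2 * L) := by
        calc _ ≤ ∑ n ∈ Icc 1 k, (2 * L : ℝ) := by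
              apply sum_le_sum
              intro n hn
              rw [mem_Icc] at hn
              unfold thp
              split_ifs
              · exact hvL n (by omega)
              · positivity
          _ = k * (2 * L) := by
              rw [sum_const, nsmul_eq_mul, Nat.card_Icc]
              simp
      have b3 : H * k ≤ L * k := mul_le_mul_of_nonneg_right hHL hk2
      have b4 : 0 ≤ H * k := mul_nonneg hH hk2
      have b5 : (k : ℝ) * (3 * L) ≤ y0 * (3 * L) := mul_le_mul_of_nonneg_right hk1 (by positivity)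
      have b6 : 0 ≤ (k : ℝ) * L := by positivity
      rw [hS, abs_le]
      simp only
      constructor <;> linarith
  have hmain : (((Icc 1 y).filter (fun n : ℕ => (v n).Prime)).card : ℝ) - H * ∑ n ∈ Icc 1 y, 1 / Real.log (v n : ℝ) =
      ∑ n ∈ Icc 1 y, (S n - S (n - 1)) * w n := by
    have e1 : (((Icc 1 y).filter (fun n : ℕ => (v n).Prime)).card : ℝ) =
        ∑ n ∈ Icc 1 y, if (v n).Prime then (1 : ℝ) else 0 := by
      rw [card_filter]
      push_cast
      rfl
    rw [e1, mul_sum, ← sum_sub_distrib]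
    refine sum_congr rfl fun n hn => ?_
    rw [mem_Icc] at hn
    have e2 : S n - S (n - 1) = thp (v n) - H := by
      obtain ⟨m, rfl⟩ : ∃ m, n = m + 1 := ⟨n - 1, by omega⟩
      rw [hS, Nat.add_sub_cancel]
      simp only
      rw [sum_Icc_succ_top (by omega)]
      push_cast
      ring
    rw [e2, hw]
    simp only
    have e3 := hlog0 n hn.2
    unfold thp
    split_ifs
    · field_simp
    · ring
  rw [hmain, abel_id S w hS0 y hy]
  obtain ⟨r, hr⟩ : ∃ r, r = Nat.sqrt (-a).toNat := ⟨_, rfl⟩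
  have hanti : ∀ m n : ℕ, m ≤ y → n ≤ y → v m ≤ v n → w n ≤ w m := by
    intro m n hm hn hmn
    rw [hw]
    simp only
    apply one_div_le_one_div_of_le (hlog0 m hm)
    apply Real.log_le_log
    · exact_mod_cast (by have := hv2 m hm; omega : 0 < v m)
    · exact_mod_cast hmn
  have hvar := variation (r := r) hy hw0 hwc (by
    intro n hn hny
    apply hanti (n + 1) n hny (by omega)
    have k1 : (n + 1) ^ 2 ≤ (-a).toNat := by
      rw [hr, Nat.le_sqrt'] at hn
      exact hn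
    have k2 : ((n + 1 : ℕ) : ℤ) ^ 2 ≤ -a := by
      have : (((n + 1) ^ 2 : ℕ) : ℤ) ≤ ((-a).toNat : ℤ) := by exact_mod_cast k1
      rcases le_or_gt 0 (-a) with h3 | h3
      · rw [Int.toNat_of_nonneg h3] at this
        push_cast at this ⊢
        exact this
      · rw [Int.toNat_of_nonpos h3.le] at this
        push_cast at this
        nlinarith
    have k3 : ((n : ℕ) : ℤ) ^ 2 ≤ ((n + 1 : ℕ) : ℤ) ^ 2 := by
      push_cast
      nlinarith
    rw [hv]
    simp only
    zify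
    push_cast at k2 k3
    rw [abs_of_nonpos (by linarith), abs_of_nonpos (by linarith)]
    linarith) (by
    intro n hn hny
    apply hanti n (n + 1) (by omega) hny
    have k1 : (-a).toNat < n ^ 2 := by
      rw [hr, Nat.sqrt_lt'] at hn
      exact hn
    have k2 : -a < ((n : ℕ) : ℤ) ^ 2 := by
      have h4 : ((-a).toNat : ℤ) < ((n ^ 2 : ℕ) : ℤ) := by exact_mod_cast k1
      have h5 := Int.self_le_toNat (-a)
      push_cast at h4
      linarith
    have k3 : ((n : ℕ) : ℤ) ^ 2 ≤ ((n + 1 : ℕ) : ℤ) ^ 2 := by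
      push_cast
      nlinarith
    rw [hv]
    simp only
    zify
    push_cast at k2 k3
    rw [abs_of_nonneg (by linarith), abs_of_nonneg (by linarith)]
    linarith)
  have c1 : |S y * w y| ≤ E * (3 / 2) := by
    rw [abs_mul, abs_of_nonneg (hw0 y le_rfl)]
    exact mul_le_mul (hSE y le_rfl) (hwc y le_rfl) (hw0 y le_rfl) hE
  have c2 : |∑ n ∈ Ico 1 y, S n * (w (n + 1) - w n)| ≤ E * (3 * (3 / 2)) := by
    calc |∑ n ∈ Ico 1 y, S n * (w (n + 1) - w n)| ≤ ∑ n ∈ Ico 1 y, |S n * (w (n + 1) - w n)| :=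
          abs_sum_le_sum_abs _ _
      _ ≤ ∑ n ∈ Ico 1 y, E * |w (n + 1) - w n| := by
          apply sum_le_sum
          intro n hn
          rw [mem_Ico] at hn
          rw [abs_mul]
          exact mul_le_mul_of_nonneg_right (hSE n (by omega)) (abs_nonneg _)
      _ = E * ∑ n ∈ Ico 1 y, |w (n + 1) - w n| := by rw [mul_sum]
      _ ≤ _ := mul_le_mul_of_nonneg_left hvar hE
  have := abs_sub (S y * w y) (∑ n ∈ Ico 1 y, S n * (w (n + 1) - w n))
  linarith

end Pool.Agent.V5helper51.CM
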