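import Pool.Agent.R460.SB.Min

/-!
# The circle method for the values of a quadratic polynomial with many fewer values than their size

The mean square over `n` of `∑_{m ≤ y} G (n - α m² - γ m)` in terms of the sums of `G(l) e(l a / q)` over windows of
length about `y²`.
-/

set_option autoImplicit false

namespace Pool.Agent.V5helper51.CM

open Finset
open Pool.Agent.H807R2.Dav (ee norm_ee ee_add ee_add_int ee_zero)
open Pool.Agent.R460.SB
open Pool.Agent.R460.SQ (cls)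
open Pool.Agent.Y883.GJ (cl)

/-- the exponential sum over `G` -/
noncomputable def Sf (G : ℕ → ℂ) (N : ℕ) (β : ℝ) : ℂ := ∑ l ∈ Icc 1 N, G l * ee (l * β)

/-- the quadratic exponential sum -/
noncomputable def Wf (α γ : ℤ) (y : ℕ) (β : ℝ) : ℂ :=
  ∑ m ∈ Icc 1 y, ee (((α : ℝ) * (m : ℝ) ^ 2 + (γ : ℝ) * (m : ℝ)) * β)

/-- the sum over the window which ends at `m` -/
noncomputable def Bw (G : ℕ → ℂ) (N Y : ℕ) (r : ℝ) (m : ℕ) : ℂ :=
  ∑ l ∈ (Icc 1 N).filter (fun l => l ≤ m ∧ m < l + Y), G l * ee (l * r)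

lemma cl_one (G : ℕ → ℂ) (N : ℕ) (β : ℝ) (a : ZMod 1) : cl 1 N G β a = Sf G N β := by
  unfold cl Sf
  rw [filter_true_of_mem]
  intro n _
  exact Subsingleton.elim _ _

lemma TT_one (α γ : ℤ) (G : ℕ → ℂ) (y N : ℕ) (β : ℝ) (a : ZMod 1) :
    TT α γ G y N 1 β a = Wf α γ y β * Sf G N β := by
  unfold TT Wf
  rw [sum_mul]
  exact sum_congr rfl fun m _ => by rw [cl_one]

lemma SF_one (α γ : ℤ) (y : ℕ) (β : ℝ) : ∑ k : ZMod 1, ‖SF α γ y 1 β k‖ ^ 2 = ‖Wf α γ y β‖ ^ 2 := by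
  rw [Fintype.sum_subsingleton _ (0 : ZMod 1)]
  unfold SF Wf
  rw [filter_true_of_mem]
  intro n _
  exact Subsingleton.elim _ _

/-- the geometric sum is large near the integers -/
lemma geo_low (Y : ℕ) (η : ℝ) (k : ℤ) (h : 6 * (Y : ℝ) * |η - k| ≤ 1) :
    (Y : ℝ) / 2 ≤ ‖∑ j ∈ range Y, ee (j * η)‖ := by
  have h1 : ∀ j ∈ range Y, (1 / 2 : ℝ) ≤ (ee (j * η)).re := by
    intro j hj
    have hjY : (j : ℝ) ≤ Y := by exact_mod_cast (mem_range.1 hj).le
    have e1 : ee (j * η) = ee (j * (η - k)) := by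
      have : (j : ℝ) * η = j * (η - k) + ((j * k : ℤ) : ℝ) := by push_cast; ring
      rw [this, ee_add_int]
    rw [e1, Pool.Agent.H807R2.Dav.ee_eq, Complex.exp_ofReal_mul_I_re]
    rw [← Real.cos_pi_div_three, ← Real.cos_abs (2 * Real.pi * (j * (η - k)))]
    apply Real.cos_le_cos_of_nonneg_of_le_pi (abs_nonneg _) (by linarith [Real.pi_pos])
    rw [abs_mul, abs_of_pos (by positivity : (0 : ℝ) < 2 * Real.pi), abs_mul, Nat.abs_cast]
    have h2 : (j : ℝ) * |η - k| ≤ 1 / 6 := by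
      have : (j : ℝ) * |η - k| ≤ Y * |η - k| := mul_le_mul_of_nonneg_right hjY (abs_nonneg _)
      linarith
    nlinarith [Real.pi_pos]
  calc (Y : ℝ) / 2 = ∑ _j ∈ range Y, (1 / 2 : ℝ) := by
        rw [sum_const, card_range, nsmul_eq_mul]
        ring
    _ ≤ ∑ j ∈ range Y, (ee (j * η)).re := sum_le_sum h1
    _ = (∑ j ∈ range Y, ee (j * η)).re := by rw [Complex.re_sum]
    _ ≤ _ := Complex.re_le_norm _

lemma window_id (G : ℕ → ℂ) (N Y : ℕ) (r η : ℝ) :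
    ∑ m ∈ range (N + Y), Bw G N Y r m * ee (m * η) = Sf G N (r + η) * ∑ j ∈ range Y, ee (j * η) := by
  have h1 : ∑ m ∈ range (N + Y), Bw G N Y r m * ee (m * η) =
      ∑ l ∈ Icc 1 N, G l * ee (l * r) *
        ∑ m ∈ (range (N + Y)).filter (fun m => l ≤ m ∧ m < l + Y), ee (m * η) := by
    unfold Bw
    simp only [sum_mul, mul_sum, sum_filter]
    rw [sum_comm]
    refine sum_congr rfl fun l _ => sum_congr rfl fun m _ => ?_
    split_ifs
    · rfl
    · simp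
  rw [h1]
  unfold Sf
  rw [sum_mul]
  refine sum_congr rfl fun l hl => ?_
  rw [mem_Icc] at hl
  have h2 : ∑ m ∈ (range (N + Y)).filter (fun m => l ≤ m ∧ m < l + Y), ee (m * η) =
      ee (l * η) * ∑ j ∈ range Y, ee (j * η) := by
    rw [mul_sum]
    refine (sum_nbij (fun j => l + j) ?_ ?_ ?_ ?_).symm
    · intro j hj
      rw [mem_range] at hj
      rw [mem_filter, mem_range]
      omega
    · intro j _ j' _ h
      simpa using h
    · intro m hm
      rw [mem_coe, mem_filter, mem_range] at hm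
      refine ⟨m - l, ?_, ?_⟩
      · rw [mem_coe, mem_range]
        omega
      · simp only
        omega
    · intro j _
      rw [← ee_add]
      congr 1
      push_cast
      ring
  rw [h2]
  have h3 : ee ((l : ℝ) * (r + η)) = ee (l * r) * ee (l * η) := by
    rw [← ee_add]
    congr 1
    ring
  rw [h3]
  ring

/-- Gallagher's lemma on the points `t / M` -/
lemma gall (G : ℕ → ℂ) {N Y M : ℕ} (hM : N + Y ≤ M) (hY : 1 ≤ Y) (hM0 : M ≠ 0) (r : ℝ) (T : Finset ℕ)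
    (hT : T ⊆ range M) (hr : ∀ t ∈ T, ∃ k : ℤ, 6 * (Y : ℝ) * |(t : ℝ) / M - r - k| ≤ 1) :
    ∑ t ∈ T, ‖Sf G N ((t : ℝ) / M)‖ ^ 2 ≤ 4 / (Y : ℝ) ^ 2 * (M * ∑ m ∈ range (N + Y), ‖Bw G N Y r m‖ ^ 2) := by
  have hY0 : (0 : ℝ) < Y := by exact_mod_cast hY
  have h1 : ∀ t ∈ T, ‖Sf G N ((t : ℝ) / M)‖ ^ 2 ≤ 4 / (Y : ℝ) ^ 2 *
      ‖∑ m ∈ range (N + Y), Bw G N Y r m * ee (m * ((t : ℝ) / M - r))‖ ^ 2 := by
    intro t ht
    obtain ⟨k, hk⟩ := hr t ht
    rw [window_id, norm_mul, mul_pow]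
    have h2 := geo_low Y ((t : ℝ) / M - r) k hk
    have h3 : r + ((t : ℝ) / M - r) = (t : ℝ) / M := by ring
    rw [h3]
    have h4 : ((Y : ℝ) / 2) ^ 2 ≤ ‖∑ j ∈ range Y, ee (j * ((t : ℝ) / M - r))‖ ^ 2 :=
      pow_le_pow_left₀ (by positivity) h2 2
    have h5 : 0 ≤ ‖Sf G N ((t : ℝ) / M)‖ ^ 2 := sq_nonneg _
    calc ‖Sf G N ((t : ℝ) / M)‖ ^ 2 = 4 / (Y : ℝ) ^ 2 * (‖Sf G N ((t : ℝ) / M)‖ ^ 2 * ((Y : ℝ) / 2) ^ 2) := by
          field_simp
          try ring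
      _ ≤ _ := by gcongr
  refine (sum_le_sum h1).trans ?_
  rw [← mul_sum]
  refine mul_le_mul_of_nonneg_left ?_ (by positivity)
  refine (sum_le_sum_of_subset_of_nonneg hT fun _ _ _ => sq_nonneg _).trans ?_
  -- Parseval
  obtain ⟨H, hH⟩ : ∃ H : ℤ → ℂ, H = fun k => Bw G N Y r k.toNat * ee (-(k.toNat * r)) := ⟨_, rfl⟩
  have h2 := Pool.Agent.Y697.GJ.pars_gen hM0 ((range (N + Y)).map Nat.castEmbedding) (by
    intro k hk k' hk' hd
    rw [mem_map] at hk hk'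
    obtain ⟨a, ha, rfl⟩ := hk
    obtain ⟨b, hb, rfl⟩ := hk'
    rw [mem_range] at ha hb
    simp only [Nat.castEmbedding_apply] at hd ⊢
    obtain ⟨c, hc⟩ := hd
    have hc0 : c = 0 := by
      by_contra h0
      rcases lt_or_gt_of_ne h0 with h | h
      · have h6 : (M : ℤ) * c ≤ (M : ℤ) * (-1) := mul_le_mul_of_nonneg_left (by omega) (by omega)
        omega
      · have h6 : (M : ℤ) * 1 ≤ (M : ℤ) * c := mul_le_mul_of_nonneg_left (by omega) (by omega)
        omega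
    rw [hc0, mul_zero] at hc
    omega) H
  simp only [sum_map, Nat.castEmbedding_apply] at h2
  have h3 : ∀ t : ℕ, ∑ m ∈ range (N + Y), Bw G N Y r m * ee (m * ((t : ℝ) / M - r)) =
      ∑ k ∈ range (N + Y), H ((k : ℕ) : ℤ) * ee ((((k : ℕ) : ℤ) : ℝ) * ((t : ℝ) / M)) := by
    intro t
    refine sum_congr rfl fun m _ => ?_
    rw [hH]
    simp only [Int.toNat_natCast, Int.cast_natCast]
    rw [mul_assoc, ← ee_add]
    congr 2
    ring
  rw [sum_congr rfl fun t _ => by rw [h3 t], h2]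
  refine le_of_eq ?_
  congr 1
  refine sum_congr rfl fun m _ => ?_
  rw [hH]
  simp only [Int.toNat_natCast]
  rw [norm_mul, norm_ee, mul_one]

/-- Weyl's inequality -/
lemma weyl (α γ : ℤ) (y s : ℕ) (β : ℝ) {h : ℤ} (hs : 1 ≤ s) (hcop : IsCoprime h (s : ℤ))
    (hβ : |2 * α * β - h / s| ≤ 1 / (s : ℝ) ^ 2) :
    ‖Wf α γ y β‖ ^ 2 ≤ y + 2 * ((((y : ℝ) + 1) / s + 1) * (39 * y + 3 * s * (1 + Real.log s))) := by
  have h1 := SF_le α γ y 1 s β (h := h) hs hcop (by simpa using hβ)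
  rw [SF_one] at h1
  simpa using h1

/-- **The circle method.** -/
theorem circ {α γ : ℤ} (hα : α ≠ 0) {G : ℕ → ℂ} {y N Y P : ℕ} (hy : y ^ 2 ≤ N) (hY : 1 ≤ Y) (hYN : Y ≤ N)
    (Wb : ℝ) (hWb : 0 ≤ Wb) (hW : ∀ s : ℕ, P < s → s ≤ 6 * Y →
      y + 2 * ((((y : ℝ) + 1) / s + 1) * (39 * y + 3 * s * (1 + Real.log s))) ≤ Wb) :
    ∑ n ∈ cls ((α.natAbs + γ.natAbs + 1) * N) 1 0, ‖cvs α γ G y N n‖ ^ 2 ≤
      Wb * ∑ l ∈ Icc 1 N, ‖G l‖ ^ 2 + 4 * (y : ℝ) ^ 2 / (Y : ℝ) ^ 2 *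
        ∑ q ∈ Icc 1 (2 * α.natAbs * P), ∑ a ∈ range q, ∑ m ∈ range (N + Y), ‖Bw G N Y ((a : ℝ) / q) m‖ ^ 2 := by
  classical
  obtain ⟨R, hR⟩ : ∃ R, R = (α.natAbs + γ.natAbs + 1) * N := ⟨_, rfl⟩
  obtain ⟨M, hM⟩ : ∃ M, M = 2 * R + 1 := ⟨_, rfl⟩
  have hRN : N ≤ R := by
    rw [hR]
    nlinarith [Nat.zero_le (α.natAbs * N), Nat.zero_le (γ.natAbs * N)]
  have hM0 : M ≠ 0 := by omega
  have hMN : N + Y ≤ M := by omega
  have hMr : (0 : ℝ) < M := by exact_mod_cast Nat.pos_of_ne_zero hM0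
  have hmean := TT_mean (α := α) (γ := γ) (G := G) (q := 1) hy 0
  rw [← hR] at hmean ⊢
  rw [← hM] at hmean
  have hα1 : 1 ≤ α.natAbs := Int.natAbs_pos.2 hα
  have hαr : (1 : ℝ) ≤ |(α : ℝ)| := by
    rw [← Int.cast_abs]
    exact_mod_cast Int.one_le_abs hα
  have hY0 : (0 : ℝ) < Y := by exact_mod_cast hY
  -- the major arcs
  obtain ⟨Maj, hMaj⟩ : ∃ Maj : ℕ → ℕ → Finset ℕ, Maj = fun q a : ℕ => (range M).filter
      (fun t : ℕ => ∃ k : ℤ, 6 * (Y : ℝ) * |(t : ℝ) / M - (a : ℝ) / q - k| ≤ 1) := ⟨_, rfl⟩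
  have hWtriv : ∀ β : ℝ, ‖Wf α γ y β‖ ^ 2 ≤ (y : ℝ) ^ 2 := by
    intro β
    apply pow_le_pow_left₀ (norm_nonneg _)
    unfold Wf
    refine (norm_sum_le _ _).trans ?_
    simp [norm_ee]
  have hpoint : ∀ t ∈ range M, ‖Wf α γ y ((t : ℝ) / M)‖ ^ 2 ≤ Wb ∨
      ∃ q ∈ Icc 1 (2 * α.natAbs * P), ∃ a ∈ range q, t ∈ Maj q a := by
    intro t ht
    obtain ⟨β, hβ⟩ : ∃ β : ℝ, β = (t : ℝ) / M := ⟨_, rfl⟩
    obtain ⟨ρ, hρ1, hρ2⟩ := Real.exists_rat_abs_sub_le_and_den_le (2 * α * β) (n := 6 * Y) (by omega)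
    obtain ⟨s, hs⟩ : ∃ s : ℕ, s = ρ.den := ⟨_, rfl⟩
    rw [← hs] at hρ1 hρ2
    have hs1 : 1 ≤ s := by rw [hs]; exact ρ.den_pos
    have hsr : (1 : ℝ) ≤ s := by exact_mod_cast hs1
    have hρe : (ρ : ℝ) = (ρ.num : ℝ) / s := by
      rw [hs]
      exact Rat.cast_def ρ
    rw [hρe] at hρ1
    push_cast at hρ1
    by_cases hPs : P < s
    · left
      refine le_trans ?_ (hW s hPs hρ2)
      rw [← hβ]
      refine weyl α γ y s β (h := ρ.num) hs1 ?_ ?_
      · rw [Int.isCoprime_iff_gcd_eq_one, hs]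
        have := ρ.reduced
        rw [Int.gcd, Int.natAbs_natCast]
        exact this
      · refine hρ1.trans ?_
        apply one_div_le_one_div_of_le (by positivity)
        rw [sq]
        apply mul_le_mul_of_nonneg_right _ (by positivity)
        have : (s : ℝ) ≤ 6 * Y := by exact_mod_cast hρ2
        linarith
    · right
      push Not at hPs
      obtain ⟨q, hq⟩ : ∃ q : ℕ, q = 2 * α.natAbs * s := ⟨_, rfl⟩
      have hq1 : 1 ≤ q := by
        rw [hq]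
        exact Nat.one_le_iff_ne_zero.2 (by positivity)
      have hqr : (0 : ℝ) < q := by exact_mod_cast hq1
      refine ⟨q, mem_Icc.2 ⟨hq1, ?_⟩, ?_⟩
      · rw [hq]
        exact Nat.mul_le_mul_left _ hPs
      obtain ⟨b, hb⟩ : ∃ b : ℤ, b = α.sign * ρ.num := ⟨_, rfl⟩
      have hqz : (0 : ℤ) < q := by exact_mod_cast hq1
      refine ⟨(b % q).toNat, ?_, ?_⟩
      · rw [mem_range]
        have h1 := Int.emod_lt_of_pos b hqz
        have h2 := Int.emod_nonneg b hqz.ne'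
        omega
      · rw [hMaj]
        simp only [mem_filter]
        refine ⟨ht, b / q, ?_⟩
        have h2 := Int.emod_nonneg b hqz.ne'
        have h3 : (((b % q).toNat : ℕ) : ℝ) = ((b % q : ℤ) : ℝ) := by
          have : (((b % q).toNat : ℕ) : ℤ) = b % q := Int.toNat_of_nonneg h2
          exact_mod_cast this
        rw [h3]
        have h4 : ((b % q : ℤ) : ℝ) = (b : ℝ) - q * ((b / q : ℤ) : ℝ) := by
          have : b % q = b - q * (b / q) := by
            have := Int.emod_add_mul_ediv b q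
            linarith
          rw [this]
          push_cast
          ring
        rw [h4, ← hβ]
        have h5 : β - ((b : ℝ) - q * ((b / q : ℤ) : ℝ)) / q - ((b / q : ℤ) : ℝ) = β - (b : ℝ) / q := by
          field_simp
          ring
        rw [h5]
        have h6 : (b : ℝ) / q = (ρ.num : ℝ) / s / (2 * α) := by
          have h7 : ((α.natAbs : ℕ) : ℝ) = (α.sign : ℝ) * α := by
            calc ((α.natAbs : ℕ) : ℝ) = (((α.natAbs : ℕ) : ℤ) : ℝ) := (Int.cast_natCast _).symm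
              _ = ((α.sign * α : ℤ) : ℝ) := by rw [Int.sign_mul_self_eq_natAbs]
              _ = _ := by rw [Int.cast_mul]
          have h8 : (α.sign : ℝ) ≠ 0 := by
            have : α.sign ≠ 0 := by
              rw [Ne, Int.sign_eq_zero_iff_zero]
              exact hα
            exact_mod_cast this
          have h9 : (α : ℝ) ≠ 0 := by exact_mod_cast hα
          have h10 : (s : ℝ) ≠ 0 := by linarith
          rw [hb, hq, Nat.cast_mul, Nat.cast_mul, h7, Int.cast_mul]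
          push_cast
          field_simp
        rw [h6]
        have h9 : (α : ℝ) ≠ 0 := by exact_mod_cast hα
        have h11 : β - (ρ.num : ℝ) / s / (2 * α) = (2 * α * β - (ρ.num : ℝ) / s) / (2 * α) := by
          field_simp
        rw [h11, abs_div, abs_mul, abs_two]
        have h12 : |2 * α * β - (ρ.num : ℝ) / s| ≤ 1 / (6 * Y) := by
          refine hρ1.trans ?_
          apply one_div_le_one_div_of_le (by positivity)
          nlinarith
        calc 6 * (Y : ℝ) * (|2 * α * β - (ρ.num : ℝ) / s| / (2 * |(α : ℝ)|)) ≤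
              6 * (Y : ℝ) * (1 / (6 * Y) / (2 * 1)) := by gcongr
          _ ≤ 1 := by
              field_simp
              norm_num
  -- the mean square
  have hTT : ∀ t : ℕ, ‖TT α γ G y N 1 ((t : ℝ) / M) 0‖ ^ 2 =
      ‖Wf α γ y ((t : ℝ) / M)‖ ^ 2 * ‖Sf G N ((t : ℝ) / M)‖ ^ 2 := by
    intro t
    rw [TT_one, norm_mul, mul_pow]
  obtain ⟨gg, hgg⟩ : ∃ gg : ℕ → ℝ, gg = fun t : ℕ => ‖Sf G N ((t : ℝ) / M)‖ ^ 2 := ⟨_, rfl⟩
  have hgg0 : ∀ t, 0 ≤ gg t := fun t => by rw [hgg]; exact sq_nonneg _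
  have hpt : ∀ t ∈ range M, ‖TT α γ G y N 1 ((t : ℝ) / M) 0‖ ^ 2 ≤ Wb * gg t +
      ∑ q ∈ Icc 1 (2 * α.natAbs * P), ∑ a ∈ range q, (if t ∈ Maj q a then (y : ℝ) ^ 2 * gg t else 0) := by
    intro t ht
    rw [hTT t]
    have hnn : 0 ≤ ∑ q ∈ Icc 1 (2 * α.natAbs * P), ∑ a ∈ range q,
        (if t ∈ Maj q a then (y : ℝ) ^ 2 * gg t else 0) := by
      refine sum_nonneg fun q _ => sum_nonneg fun a _ => ?_
      have := hgg0 t
      split_ifs <;> positivity
    have hnn2 : 0 ≤ Wb * gg t := mul_nonneg hWb (hgg0 t)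
    have hg : ‖Sf G N ((t : ℝ) / M)‖ ^ 2 = gg t := by rw [hgg]
    rw [hg]
    rcases hpoint t ht with h1 | ⟨q, hq, a, ha, h1⟩
    · have : ‖Wf α γ y ((t : ℝ) / M)‖ ^ 2 * gg t ≤ Wb * gg t :=
        mul_le_mul_of_nonneg_right h1 (hgg0 t)
      linarith
    · have h2 : ‖Wf α γ y ((t : ℝ) / M)‖ ^ 2 * gg t ≤ (y : ℝ) ^ 2 * gg t :=
        mul_le_mul_of_nonneg_right (hWtriv _) (hgg0 t)
      have h3 : (y : ℝ) ^ 2 * gg t ≤ ∑ a ∈ range q, (if t ∈ Maj q a then (y : ℝ) ^ 2 * gg t else 0) := by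
        have := single_le_sum (f := fun a : ℕ => if t ∈ Maj q a then (y : ℝ) ^ 2 * gg t else 0) (fun a _ => by
          have := hgg0 t
          split_ifs <;> positivity) ha
        rwa [if_pos h1] at this
      have h4 : ∑ a ∈ range q, (if t ∈ Maj q a then (y : ℝ) ^ 2 * gg t else 0) ≤
          ∑ q ∈ Icc 1 (2 * α.natAbs * P), ∑ a ∈ range q, (if t ∈ Maj q a then (y : ℝ) ^ 2 * gg t else 0) :=
        single_le_sum (f := fun q : ℕ => ∑ a ∈ range q, (if t ∈ Maj q a then (y : ℝ) ^ 2 * gg t else 0))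
          (fun q _ => sum_nonneg fun a _ => by
            have := hgg0 t
            split_ifs <;> positivity) hq
      linarith
  -- Parseval for `G`
  have hparG : ∑ t ∈ range M, gg t = M * ∑ l ∈ Icc 1 N, ‖G l‖ ^ 2 := by
    have h2 := Pool.Agent.Y697.GJ.pars_gen hM0 ((Icc 1 N).map Nat.castEmbedding) (by
      intro k hk k' hk' hd
      rw [mem_map] at hk hk'
      obtain ⟨a, ha, rfl⟩ := hk
      obtain ⟨b, hb, rfl⟩ := hk'
      rw [mem_Icc] at ha hb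
      simp only [Nat.castEmbedding_apply] at hd ⊢
      obtain ⟨c, hc⟩ := hd
      have hc0 : c = 0 := by
        by_contra h0
        rcases lt_or_gt_of_ne h0 with h | h
        · have h6 : (M : ℤ) * c ≤ (M : ℤ) * (-1) := mul_le_mul_of_nonneg_left (by omega) (by omega)
          omega
        · have h6 : (M : ℤ) * 1 ≤ (M : ℤ) * c := mul_le_mul_of_nonneg_left (by omega) (by omega)
          omega
      rw [hc0, mul_zero] at hc
      omega) (fun k => G k.toNat)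
    simp only [sum_map, Nat.castEmbedding_apply, Int.toNat_natCast, Int.cast_natCast] at h2
    rw [← h2, hgg]
    rfl
  have hsum : (M : ℝ) * ∑ n ∈ cls R 1 0, ‖cvs α γ G y N n‖ ^ 2 ≤ M * (Wb * ∑ l ∈ Icc 1 N, ‖G l‖ ^ 2 +
      4 * (y : ℝ) ^ 2 / (Y : ℝ) ^ 2 *
        ∑ q ∈ Icc 1 (2 * α.natAbs * P), ∑ a ∈ range q, ∑ m ∈ range (N + Y), ‖Bw G N Y ((a : ℝ) / q) m‖ ^ 2) := by
    rw [hmean]
    refine (sum_le_sum hpt).trans ?_
    rw [sum_add_distrib, ← mul_sum, hparG, mul_add]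
    refine add_le_add (le_of_eq (by ring)) ?_
    rw [sum_comm]
    have h1 : ∀ q ∈ Icc 1 (2 * α.natAbs * P), ∑ t ∈ range M, ∑ a ∈ range q,
        (if t ∈ Maj q a then (y : ℝ) ^ 2 * gg t else 0) ≤ ∑ a ∈ range q, (y : ℝ) ^ 2 *
          (4 / (Y : ℝ) ^ 2 * (M * ∑ m ∈ range (N + Y), ‖Bw G N Y ((a : ℝ) / q) m‖ ^ 2)) := by
      intro q _
      rw [sum_comm]
      refine sum_le_sum fun a _ => ?_
      rw [← sum_filter, ← mul_sum]
      refine mul_le_mul_of_nonneg_left ?_ (by positivity)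
      have h2 : (range M).filter (fun t => t ∈ Maj q a) = Maj q a := by
        ext t
        rw [mem_filter, hMaj]
        simp only [mem_filter]
        tauto
      rw [h2, hgg]
      refine gall G hMN hY hM0 ((a : ℝ) / q) (Maj q a) ?_ ?_
      · rw [hMaj]
        exact filter_subset _ _
      · intro t ht
        rw [hMaj] at ht
        exact (mem_filter.1 ht).2
    refine (sum_le_sum h1).trans (le_of_eq ?_)
    rw [mul_sum, mul_sum]
    refine sum_congr rfl fun q _ => ?_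
    rw [mul_sum, mul_sum]
    refine sum_congr rfl fun a _ => ?_
    ring
  exact le_of_mul_le_mul_left hsum hMr

end Pool.Agent.V5helper51.CM
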