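import Pool.Agent.V5helper51.CM.Main
import Pool.Agent.R460.SC.Fc

/-!
# The full Euler product
-/

set_option autoImplicit false

namespace Pool.Agent.V5helper51.CM

open Finset Filter Topology
open Pool.Agent.H373R2.T7 (lamz Vz pz Vz_pos Vz_inv_small nuB mem_pz)
open Pool.Agent.R460.SB (Sz Sz_bd Sz_low loc_lt fv QS)
open Pool.Agent.R460.SQ (thp)
open Pool.Agent.R460.SC (PJ_lim Sz_split' tail_both)
open Pool.Agent.W468.ConjF (SJ PJ)
open Pool.Agent.Q236.CR (S_LZ)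
open Pool.Agent.V5helper51.CR6 (SIAt)
open Pool.Agent.Y614.GJ.Core (ev_log)

/-- the conclusion for one polynomial -/
def GoodU (a b : ℤ) (θ : ℝ) (C D N : ℕ) (c : ℤ) : Prop :=
  ∃ S : ℝ, Tendsto (fun z : ℕ => Sz (-a) (-b) c z) atTop (𝓝 S) ∧
    ((∀ p : ℕ, p.Prime → ∃ m : ℕ, ¬ (p : ℤ) ∣ fv (-a) (-b) c m) → 1 / Real.log N ^ 3 ≤ S) ∧
    ∀ y : ℕ, (N : ℝ) ^ (θ / 2) * Real.log N ^ D ≤ y → y ^ 2 ≤ N →
      |∑ m ∈ Icc 1 y, thp (fv (-a) (-b) c m).natAbs - S * y| ≤ y / Real.log N ^ C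

lemma goodU_of {a b c : ℤ} {θ : ℝ} (ha : a ≠ 0) {C D N z : ℕ} (hz : 2 ≤ z) (haz : a.natAbs ≤ z)
    (hL : 64 ≤ Real.log N) (hκ : 2 / (1 / (a.natAbs : ℝ)) ^ a.natAbs ≤ Real.log N)
    (hV : (Vz z)⁻¹ ≤ Real.log N) (hzL : Real.log N ^ (C + 4) ≤ z)
    (hsq : ¬ IsSquare (b ^ 2 - 4 * a * c))
    (htail : ∀ᶠ M in atTop, |SJ (b ^ 2 - 4 * a * c) z M| ≤ 1 / Real.log N ^ (C + 4))
    (h : GoodT (-a) (-b) θ (C + 1) D N z c) : GoodU a b θ C D N c := by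
  obtain ⟨L, hLd⟩ : ∃ L, L = Real.log (N : ℝ) := ⟨_, rfl⟩
  rw [← hLd] at hL hV hzL htail hκ
  have hL0 : 0 < L := by linarith
  have hL1 : 1 ≤ L := by linarith
  have hz0 : (0 : ℝ) < z := by exact_mod_cast (by omega : 0 < z)
  have hP0 : 0 < L ^ (C + 4) := by positivity
  have h5z : 5 / (z : ℝ) ≤ 5 / L ^ (C + 4) := div_le_div_of_nonneg_left (by norm_num) hP0 hzL
  have hLP : L ≤ L ^ (C + 4) := le_self_pow₀ hL1 (by omega)
  have h6 : 1 / L ^ (C + 4) + 5 / z ≤ 6 / L ^ (C + 4) := by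
    have : 6 / L ^ (C + 4) = 1 / L ^ (C + 4) + 5 / L ^ (C + 4) := by ring
    linarith
  have h7 : 6 / L ^ (C + 4) ≤ 1 / 8 := by
    rw [div_le_div_iff₀ hP0 (by norm_num)]
    linarith
  obtain ⟨ℓ, hℓ0, hℓ, hℓ1⟩ := PJ_lim hsq hz (by positivity) (h6.trans (h7.trans (by norm_num))) htail
  refine ⟨Sz (-a) (-b) c z * ℓ, ?_, ?_, ?_⟩
  · refine (hℓ.const_mul (Sz (-a) (-b) c z)).congr' ?_
    filter_upwards [eventually_ge_atTop z] with M hM
    rw [Sz_split' ha hz haz hM]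
  · intro hloc
    rw [← hLd]
    have hS := Sz_low (neg_ne_zero.2 ha) c z (fun p hp => loc_lt (mem_pz.1 hp).2 (hloc p (mem_pz.1 hp).2))
    rw [Int.natAbs_neg] at hS
    obtain ⟨κ, hκd⟩ : ∃ κ, κ = (1 / (a.natAbs : ℝ)) ^ a.natAbs := ⟨_, rfl⟩
    rw [← hκd] at hS hκ
    have ha1 : (1 : ℝ) ≤ a.natAbs := by exact_mod_cast Int.natAbs_pos.2 ha
    have hκ0 : 0 < κ := by rw [hκd]; positivity
    have hκL : 2 ≤ κ * L := by
      rw [div_le_iff₀ hκ0] at hκ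
      linarith
    have hVp := Vz_pos z
    have hV2 : κ * (1 / L ^ 2) ≤ Sz (-a) (-b) c z := by
      refine le_trans ?_ hS
      have : 1 / L ≤ Vz z := by
        rw [one_div]
        exact inv_le_of_inv_le₀ hVp hV
      apply mul_le_mul_of_nonneg_left _ hκ0.le
      calc 1 / L ^ 2 = (1 / L) ^ 2 := by rw [div_pow, one_pow]
        _ ≤ Vz z ^ 2 := by gcongr
    have hℓ2 : 1 / 2 ≤ ℓ := by
      have h8 := abs_le.1 hℓ1
      linarith [h8.1]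
    calc 1 / L ^ 3 = 2 * (1 / L ^ 3) * (1 / 2) := by ring
      _ ≤ (κ * L) * (1 / L ^ 3) * (1 / 2) := by gcongr
      _ = κ * (1 / L ^ 2) * (1 / 2) := by field_simp
      _ ≤ Sz (-a) (-b) c z * ℓ := by
          apply mul_le_mul hV2 hℓ2 (by norm_num)
          exact le_trans (by positivity) hV2
  · intro y hy1 hy
    have h8 := h y hy1 hy
    rw [← hLd] at h8 hy1 ⊢
    obtain ⟨s0, s1⟩ := Sz_bd (-a) (-b) c z
    have hy0 : (0 : ℝ) ≤ y := Nat.cast_nonneg _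
    obtain ⟨Th, hTh⟩ : ∃ Th, Th = ∑ m ∈ Icc 1 y, thp (fv (-a) (-b) c m).natAbs := ⟨_, rfl⟩
    rw [← hTh] at h8 ⊢
    have e : Th - Sz (-a) (-b) c z * ℓ * y = (Th - Sz (-a) (-b) c z * y) - Sz (-a) (-b) c z * (ℓ - 1) * y := by ring
    rw [e]
    refine (abs_sub _ _).trans ?_
    have h9 : |Sz (-a) (-b) c z * (ℓ - 1) * y| ≤ L * (12 / L ^ (C + 4)) * y := by
      rw [abs_mul, abs_mul, abs_of_nonneg s0, abs_of_nonneg hy0]
      have h10 : |ℓ - 1| ≤ 12 / L ^ (C + 4) := by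
        refine hℓ1.trans ?_
        have : 12 / L ^ (C + 4) = 2 * (6 / L ^ (C + 4)) := by ring
        linarith
      gcongr
      exact s1.trans hV
    have h11 : (y : ℝ) / L ^ (C + 1) ≤ y / L ^ C / 2 := by
      rw [div_div, div_le_div_iff₀ (by positivity) (by positivity), pow_succ]
      have : 0 ≤ (y : ℝ) * L ^ C := by positivity
      nlinarith
    have h12 : L * (12 / L ^ (C + 4)) * y ≤ y / L ^ C / 2 := by
      have e1 : L * (12 / L ^ (C + 4)) * y = y / L ^ C * (12 / L ^ 3) := by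
        rw [pow_add L C 4]
        field_simp
      rw [e1, div_eq_mul_inv ((y : ℝ) / L ^ C) 2]
      apply mul_le_mul_of_nonneg_left _ (by positivity)
      rw [div_le_iff₀ (by positivity)]
      have : L ≤ L ^ 3 := le_self_pow₀ hL1 (by norm_num)
      linarith
    linarith

open Classical in
theorem full_th {θ : ℝ} (hθ : 1 / 8 ≤ θ) (hθ1 : θ ≤ 1) (hS : SIAt θ) (hLZ : S_LZ) {a b : ℤ} (ha : a ≠ 0)
    (A C : ℕ) :
    ∃ D N₀ : ℕ, ∀ N : ℕ, N₀ ≤ N →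
      (((Icc (-(N : ℤ)) N).filter (fun c : ℤ => ¬ GoodU a b θ C D N c)).card : ℝ) ≤ (N : ℝ) / Real.log N ^ A := by
  obtain ⟨D, B, hB⟩ := main_th hθ hθ1 hS hLZ (α := -a) (γ := -b) (neg_ne_zero.2 ha) (A + 1) (C + 1)
  obtain ⟨U, hU⟩ : ∃ U, U = A + C + 4 := ⟨_, rfl⟩
  obtain ⟨B', hB'⟩ : ∃ B', B' = B + 3 * (U + 1) + 4 := ⟨_, rfl⟩
  obtain ⟨N₁, h1⟩ := hB (B' + 1)
  obtain ⟨N₂, h2⟩ := tail_both a ha b (1 / 4) (by norm_num) U (B' + 1)
  obtain ⟨N₃, h3⟩ := Vz_inv_small (B' + 1)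
  obtain ⟨κ, hκd⟩ : ∃ κ, κ = (1 / (a.natAbs : ℝ)) ^ a.natAbs := ⟨_, rfl⟩
  have ha1 : (1 : ℝ) ≤ a.natAbs := by exact_mod_cast Int.natAbs_pos.2 ha
  have hκ0 : 0 < κ := by rw [hκd]; positivity
  obtain ⟨N₄, h4⟩ := Filter.eventually_atTop.1 (ev_log (A + 2) (s := 1) (by norm_num)
    (100 + (a.natAbs : ℝ) + 2 / κ))
  refine ⟨D, N₁ + N₂ + N₃ + N₄ + 3, fun N hN => ?_⟩
  obtain ⟨hLb, hLp⟩ := h4 N (by omega)
  have hN1 : 1 ≤ N := by omega
  have hN0 : (0 : ℝ) < N := by exact_mod_cast hN1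
  have hN1r : (1 : ℝ) ≤ N := by exact_mod_cast hN1
  have c1 := h1 N (by omega)
  have c2 := h2 N (by omega)
  have c3 := h3 N (by omega)
  obtain ⟨L, hL⟩ : ∃ L, L = Real.log (N : ℝ) := ⟨_, rfl⟩
  have hκ2 : 0 < 2 / κ := by positivity
  rw [← hL] at hLb hLp c1 c2 c3 ⊢
  have hL100 : 100 ≤ L := by linarith
  have hL0 : 0 < L := by linarith
  have hL1 : 1 ≤ L := by linarith
  obtain ⟨z, hz⟩ : ∃ z, z = ⌈L ^ B'⌉₊ := ⟨_, rfl⟩
  have hzlo : L ^ B' ≤ z := by rw [hz]; exact Nat.le_ceil _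
  have hL1B : 1 ≤ L ^ B' := one_le_pow₀ hL1
  have hzhi : (z : ℝ) ≤ L ^ (B' + 1) := by
    have := Nat.ceil_lt_add_one (show 0 ≤ L ^ B' by positivity)
    rw [← hz] at this
    calc (z : ℝ) ≤ L ^ B' + 1 := this.le
      _ ≤ L ^ B' + L ^ B' := by linarith
      _ = 2 * L ^ B' := by ring
      _ ≤ L * L ^ B' := mul_le_mul_of_nonneg_right (by linarith) (by positivity)
      _ = L ^ (B' + 1) := by ring
  have hzL : L ≤ z := (le_self_pow₀ hL1 (by omega)).trans hzlo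
  have hz2 : 2 ≤ z := by
    have : (2 : ℝ) ≤ z := by linarith
    exact_mod_cast this
  have haz : a.natAbs ≤ z := by
    have : ((a.natAbs : ℕ) : ℝ) ≤ z := by linarith
    exact_mod_cast this
  obtain ⟨Ex, hEx1, hEx2⟩ := c2 z ((pow_le_pow_right₀ hL1 (by omega)).trans hzlo) hzhi 1 le_rfl
    (by
      push_cast
      exact Real.one_le_rpow hN1r (by norm_num)) 0
  have d3 := c3 z (by omega) hzhi
  obtain ⟨H, hH⟩ : ∃ H, H = ((Icc (-(N : ℤ)) N).filter (fun c : ℤ => ¬ GoodU a b θ C D N c)).filter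
    (fun c => c ∉ Ex) := ⟨_, rfl⟩
  have d1 := c1 z ((pow_le_pow_right₀ hL1 (by omega)).trans hzlo) hzhi H (by
    intro c hc
    rw [hH, mem_filter, mem_filter, mem_Icc] at hc
    obtain ⟨⟨⟨g1, g2⟩, g3⟩, g4⟩ := hc
    refine ⟨abs_le.2 ⟨g1, g2⟩, fun hg => g3 ?_⟩
    obtain ⟨e1, e2⟩ := hEx2 c g1 g2 (by simpa using Int.modEq_one) g4
    refine goodU_of ha hz2 haz (by rw [← hL]; linarith) (by rw [← hL, ← hκd]; linarith) (by rw [← hL]; exact d3) (by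
      rw [← hL]
      exact (pow_le_pow_right₀ hL1 (by omega)).trans hzlo) e1 ?_ hg
    filter_upwards [e2] with M hM
    refine hM.trans ?_
    rw [← hL]
    apply one_div_le_one_div_of_le (by positivity)
    exact pow_le_pow_right₀ hL1 (by omega))
  have hcard : (((Icc (-(N : ℤ)) N).filter (fun c : ℤ => ¬ GoodU a b θ C D N c)).card : ℝ) ≤
      (H.card : ℝ) + (Ex.card : ℝ) := by
    have e1 : (Icc (-(N : ℤ)) N).filter (fun c : ℤ => ¬ GoodU a b θ C D N c) ⊆ H ∪ Ex := by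
      intro c hc
      rw [mem_union]
      by_cases hE : c ∈ Ex
      · exact Or.inr hE
      · left
        rw [hH, mem_filter]
        exact ⟨hc, hE⟩
    exact_mod_cast (card_le_card e1).trans (card_union_le _ _)
  refine hcard.trans ?_
  -- comparison of the terms
  obtain ⟨Y, hY⟩ : ∃ Y : ℝ, Y = (N : ℝ) / L ^ (A + 1) := ⟨_, rfl⟩
  have hY0 : 0 < Y := by rw [hY]; positivity
  have t1 : (N : ℝ) / L ^ U ≤ Y := by
    rw [hY]
    apply div_le_div_of_nonneg_left hN0.le (by positivity)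
    exact pow_le_pow_right₀ hL1 (by omega)
  have hhalf : 1 ≤ Y := by
    rw [hY, le_div_iff₀ (by positivity), one_mul]
    rw [Real.rpow_one] at hLp
    exact (pow_le_pow_right₀ hL1 (by omega)).trans hLp
  have hfin : (N : ℝ) / L ^ A = Y * L := by
    rw [hY, pow_succ]
    field_simp
  rw [hfin]
  rw [← hY] at d1
  have hEx3 : (Ex.card : ℝ) ≤ 2 * Y + 1 := by
    refine hEx1.trans ?_
    push_cast
    rw [one_mul]
    linarith
  have : 4 * Y ≤ Y * L := by nlinarith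
  linarith

end Pool.Agent.V5helper51.CM
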