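import Pool.Agent.V5helper51.CM.Ms
import Pool.Agent.R460.SB.Main

/-!
# The exceptional integers
-/

set_option autoImplicit false

namespace Pool.Agent.V5helper51.CM

open Finset
open Pool.Agent.H373R2.T7 (lamz Vz pz Vz_pos Vz_inv_small)
open Pool.Agent.R460.SB
open Pool.Agent.R460.SQ (DZ bd_DZ cls thp ppw vm_split ppw_nn)
open Pool.Agent.Q236.CR (S_LZ)
open Pool.Agent.V5helper51.CR6 (SIAt)
open Pool.Agent.Y614.GJ.Core (ev_log)

/-- the property of the integer `n` -/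
def GoodT (α γ : ℤ) (θ : ℝ) (C D X z : ℕ) (n : ℤ) : Prop :=
  ∀ y : ℕ, (X : ℝ) ^ (θ / 2) * Real.log X ^ D ≤ y → y ^ 2 ≤ X →
    |∑ m ∈ Icc 1 y, thp (fv α γ n m).natAbs - Sz α γ n z * y| ≤ y / Real.log X ^ C

lemma cover_count {ι : Type*} {H : Finset ℤ} (S : Finset ι) (B : ι → Finset ℤ) {R : ℝ}
    (hcov : ∀ n ∈ H, ∃ i ∈ S, n ∈ B i) (hB : ∀ i ∈ S, ((B i).card : ℝ) ≤ R) :
    (H.card : ℝ) ≤ S.card * R := by
  classical
  have h1 : H ⊆ S.biUnion B := by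
    intro n hn
    rw [mem_biUnion]
    exact hcov n hn
  calc (H.card : ℝ) ≤ ((S.biUnion B).card : ℝ) := by exact_mod_cast card_le_card h1
    _ ≤ ((∑ i ∈ S, (B i).card : ℕ) : ℝ) := by exact_mod_cast card_biUnion_le
    _ = ∑ i ∈ S, ((B i).card : ℝ) := by push_cast; rfl
    _ ≤ ∑ _i ∈ S, R := sum_le_sum hB
    _ = _ := by rw [sum_const, nsmul_eq_mul]

/-- Chebyshev's inequality -/
lemma cheb {ι : Type*} (T : Finset ι) (f : ι → ℝ) {t R : ℝ} (ht : 0 < t) (h : ∑ n ∈ T, f n ^ 2 ≤ R) :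
    ((T.filter (fun n => t ≤ f n)).card : ℝ) ≤ R / t ^ 2 := by
  rw [le_div_iff₀ (by positivity)]
  calc ((T.filter (fun n => t ≤ f n)).card : ℝ) * t ^ 2 = ∑ _n ∈ T.filter (fun n => t ≤ f n), t ^ 2 := by
        rw [sum_const, nsmul_eq_mul]
    _ ≤ ∑ n ∈ T.filter (fun n => t ≤ f n), f n ^ 2 := by
        refine sum_le_sum fun n hn => ?_
        exact pow_le_pow_left₀ ht.le (mem_filter.1 hn).2 2
    _ ≤ ∑ n ∈ T, f n ^ 2 := sum_le_sum_of_subset_of_nonneg (filter_subset _ _) fun n _ _ => sq_nonneg _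
    _ ≤ R := h

lemma mem_cls1 {R : ℕ} {n : ℤ} (h : |n| ≤ R) : n ∈ cls R 1 0 := by
  unfold cls
  rw [mem_filter, mem_Icc]
  exact ⟨abs_le.1 h, Subsingleton.elim _ _⟩

/-- the dyadic step -/
noncomputable def st (P : ℝ) (i : ℕ) : ℕ := ⌊(2 : ℝ) ^ i / P⌋₊

/-- the grid near `y` -/
lemma grid_near {P : ℝ} (hP : 2 ≤ P) {y : ℕ} (hy : 4 * P ≤ y) :
    ∃ i k : ℕ, 2 ^ i ≤ y ∧ y < 2 ^ (i + 1) ∧ 1 ≤ st P i ∧ (st P i : ℝ) ≤ y / P ∧ k = y / st P i ∧
      (k : ℝ) ≤ 4 * P ∧ (y : ℝ) / 2 ≤ ((k * st P i : ℕ) : ℝ) ∧ k * st P i ≤ y := by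
  have hy0 : 0 < y := by
    have : (0 : ℝ) < y := by linarith
    exact_mod_cast this
  obtain ⟨i, hi⟩ : ∃ i, i = Nat.log 2 y := ⟨_, rfl⟩
  have h1 : 2 ^ i ≤ y := by rw [hi]; exact Nat.pow_log_le_self 2 (by omega)
  have h2 : y < 2 ^ (i + 1) := by rw [hi]; exact Nat.lt_pow_succ_log_self (by norm_num) y
  have h1r : (2 : ℝ) ^ i ≤ y := by exact_mod_cast h1
  have h2r : (y : ℝ) < 2 * 2 ^ i := by
    have : (y : ℝ) < 2 ^ (i + 1) := by exact_mod_cast h2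
    rw [pow_succ] at this
    linarith
  have hP0 : 0 < P := by linarith
  have h3 : 2 ≤ (2 : ℝ) ^ i / P := by
    rw [le_div_iff₀ hP0]
    linarith
  obtain ⟨s, hs⟩ : ∃ s, s = st P i := ⟨_, rfl⟩
  have hsd : s = ⌊(2 : ℝ) ^ i / P⌋₊ := by rw [hs]; rfl
  have h4 : (s : ℝ) ≤ (2 : ℝ) ^ i / P := by rw [hsd]; exact Nat.floor_le (by linarith)
  have h5 : (2 : ℝ) ^ i / P < s + 1 := by rw [hsd]; exact Nat.lt_floor_add_one _
  have h6 : (2 : ℝ) ^ i / P / 2 ≤ s := by linarith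
  have hs0 : (0 : ℝ) < s := by linarith
  have hs1 : 1 ≤ s := by exact_mod_cast hs0
  have h7 : (s : ℝ) ≤ y / P := h4.trans (div_le_div_of_nonneg_right h1r hP0.le)
  have h8 : (((y / s : ℕ)) : ℝ) ≤ 4 * P := by
    have a1 : ((y / s : ℕ) : ℝ) ≤ (y : ℝ) / s := Nat.cast_div_le
    refine a1.trans ?_
    rw [div_le_iff₀ hs0]
    have a2 : 4 * P * ((2 : ℝ) ^ i / P / 2) = 2 * 2 ^ i := by
      field_simp
      ring
    have a3 : 4 * P * ((2 : ℝ) ^ i / P / 2) ≤ 4 * P * s := mul_le_mul_of_nonneg_left h6 (by linarith)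
    linarith
  have h9 : y / s * s ≤ y := Nat.div_mul_le_self y s
  have h10 : y ≤ y / s * s + s := by
    have := Nat.div_add_mod y s
    have h3 := Nat.mod_lt y hs1
    nlinarith
  have h11 : (s : ℝ) ≤ y / 2 := by
    refine h7.trans ?_
    rw [div_le_div_iff₀ hP0 (by norm_num)]
    have hy1 : 0 < (y : ℝ) := by exact_mod_cast hy0
    nlinarith
  refine ⟨i, y / s, h1, h2, by rw [← hs]; exact hs1, by rw [← hs]; exact h7, by rw [← hs], h8, ?_,
    by rw [← hs]; exact h9⟩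
  rw [← hs]
  have : (y : ℝ) ≤ ((y / s * s : ℕ) : ℝ) + s := by exact_mod_cast h10
  linarith

lemma sq_le_of {a b : ℕ} {X : ℕ} (h : a ≤ b) (hb : b ^ 2 ≤ X) : a ^ 2 ≤ X :=
  (Nat.pow_le_pow_left h 2).trans hb

/-- one sign -/
lemma corr_bad {θ : ℝ} {α γ : ℤ} {A' D₁ C : ℕ} {N z : ℕ} {L' L : ℝ} (hL0 : 0 < L) (hL0' : 0 < L')
    (hms : ∀ y : ℕ, (N : ℝ) ^ (θ / 2) * L' ^ D₁ ≤ y → y ^ 2 ≤ N →
      ∑ n ∈ cls ((α.natAbs + γ.natAbs + 1) * N) 1 0, ‖cvs α γ (DZ z) y N n‖ ^ 2 ≤ N * (y : ℝ) ^ 2 / L' ^ A')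
    (P : ℝ) (I K : ℕ) (H : Finset ℤ) (hH : ∀ n ∈ H, |n| ≤ ((α.natAbs + γ.natAbs + 1) * N : ℕ))
    (hbad : ∀ n ∈ H, ∃ i ∈ range I, ∃ k ∈ range K, 0 < k * st P i ∧
      (N : ℝ) ^ (θ / 2) * L' ^ D₁ ≤ ((k * st P i : ℕ) : ℝ) ∧ (k * st P i) ^ 2 ≤ N ∧
      ((k * st P i : ℕ) : ℝ) / (4 * L ^ C) ≤ ‖cvs α γ (DZ z) (k * st P i) N n‖) :
    (H.card : ℝ) ≤ I * K * (16 * N * L ^ (2 * C) / L' ^ A') := by
  classical
  obtain ⟨S, hS⟩ : ∃ S : Finset (ℕ × ℕ), S = (range I ×ˢ range K).filter (fun p => 0 < p.2 * st P p.1 ∧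
      (N : ℝ) ^ (θ / 2) * L' ^ D₁ ≤ ((p.2 * st P p.1 : ℕ) : ℝ) ∧ (p.2 * st P p.1) ^ 2 ≤ N) := ⟨_, rfl⟩
  have h1 := cover_count (H := H) S (fun p => (cls ((α.natAbs + γ.natAbs + 1) * N) 1 0).filter
    (fun n => ((p.2 * st P p.1 : ℕ) : ℝ) / (4 * L ^ C) ≤ ‖cvs α γ (DZ z) (p.2 * st P p.1) N n‖))
    (R := 16 * N * L ^ (2 * C) / L' ^ A') ?_ ?_
  · refine h1.trans ?_
    have hSc : (S.card : ℝ) ≤ I * K := by
      have h2 : S.card ≤ (range I ×ˢ range K).card := by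
        rw [hS]
        exact card_filter_le _ _
      rw [card_product, card_range, card_range] at h2
      exact_mod_cast h2
    exact mul_le_mul_of_nonneg_right hSc (by positivity)
  · intro n hn
    obtain ⟨i, hi, k, hk, q1, q2, q3, q4⟩ := hbad n hn
    refine ⟨(i, k), ?_, ?_⟩
    · rw [hS, mem_filter, mem_product]
      exact ⟨⟨hi, hk⟩, q1, q2, q3⟩
    · rw [mem_filter]
      exact ⟨mem_cls1 (hH n hn), q4⟩
  · intro p hp
    rw [hS, mem_filter] at hp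
    have e0 : (0 : ℝ) < ((p.2 * st P p.1 : ℕ) : ℝ) := by exact_mod_cast hp.2.1
    have h3 := hms (p.2 * st P p.1) hp.2.2.1 hp.2.2.2
    have h4 := cheb (cls ((α.natAbs + γ.natAbs + 1) * N) 1 0)
      (fun n => ‖cvs α γ (DZ z) (p.2 * st P p.1) N n‖) (t := ((p.2 * st P p.1 : ℕ) : ℝ) / (4 * L ^ C))
      (by positivity) h3
    refine h4.trans (le_of_eq ?_)
    field_simp
    ring

/-- the contribution of the prime powers -/
lemma pp_bad {α γ : ℤ} {X I C : ℕ} {L g : ℝ} (hg : g = kap α γ + 1) (hg1 : 1 ≤ g) (hL : L = Real.log X)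
    (hX1 : 1 ≤ X) (hLg : 4 * g + 4 ≤ L) (H : Finset ℤ) (hH : ∀ n ∈ H, |n| ≤ X)
    (hbad : ∀ n ∈ H, ∃ i ∈ range I, 2 ^ (2 * i) ≤ X ∧
      (2 : ℝ) ^ i / (4 * L ^ C) ≤ ∑ m ∈ Icc 1 (2 ^ (i + 1)), ppw (fv α γ n m).natAbs) :
    (H.card : ℝ) ≤ I * (128 * g * Real.sqrt X * L ^ (C + 1)) := by
  classical
  have hX0 : (0 : ℝ) < X := by exact_mod_cast hX1
  have hL0 : 0 < L := by linarith
  have hM0 : 0 < Real.sqrt X := Real.sqrt_pos.2 hX0
  have hc := cover_count (H := H) ((range I).filter (fun i => 2 ^ (2 * i) ≤ X)) (fun i => H.filter (fun n =>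
    (2 : ℝ) ^ i / (4 * L ^ C) ≤ ∑ m ∈ Icc 1 (2 ^ (i + 1)), ppw (fv α γ n m).natAbs))
    (R := 128 * g * Real.sqrt X * L ^ (C + 1)) ?_ ?_
  · refine hc.trans ?_
    apply mul_le_mul_of_nonneg_right _ (by positivity)
    have h1 : ((range I).filter (fun i => 2 ^ (2 * i) ≤ X)).card ≤ (range I).card := card_filter_le _ _
    rw [card_range] at h1
    exact_mod_cast h1
  · intro n hn
    obtain ⟨i, hi, h1, h2⟩ := hbad n hn
    exact ⟨i, mem_filter.2 ⟨hi, h1⟩, mem_filter.2 ⟨hn, h2⟩⟩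
  · intro i hi
    rw [mem_filter] at hi
    obtain ⟨N, hN⟩ : ∃ N, N = (α.natAbs + γ.natAbs + 1) * (4 * X) := ⟨_, rfl⟩
    have hNr : (N : ℝ) = g * (4 * X) := by
      rw [hN, hg, ← kap_nat]
      push_cast
      ring
    have hXN : X ≤ N := by
      rw [hN]
      nlinarith [Nat.zero_le (α.natAbs * X), Nat.zero_le (γ.natAbs * X)]
    have hN1 : 1 ≤ N := hX1.trans hXN
    have hN0 : (0 : ℝ) < N := by exact_mod_cast hN1
    have k1 := pp_count (α := α) (γ := γ) (X := 4 * X) (N := N) (Y := 2 ^ (i + 1)) hN1 (by rw [hN])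
      (H.filter (fun n => (2 : ℝ) ^ i / (4 * L ^ C) ≤ ∑ m ∈ Icc 1 (2 ^ (i + 1)), ppw (fv α γ n m).natAbs))
      (fun n hn => (hH n (mem_filter.1 hn).1).trans (by push_cast; linarith [Int.natCast_nonneg X]))
      (by
        have : (2 ^ (i + 1)) ^ 2 = 4 * 2 ^ (2 * i) := by ring
        rw [this]
        exact Nat.mul_le_mul_left 4 hi.2) (t := (2 : ℝ) ^ i / (4 * L ^ C))
      (fun n hn => (mem_filter.1 hn).2)
    have hsN : Real.sqrt N ≤ 2 * g * Real.sqrt X := by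
      rw [Real.sqrt_le_left (by positivity)]
      rw [mul_pow, Real.sq_sqrt hX0.le, hNr]
      nlinarith
    have hlN : Real.log N ≤ 2 * L := by
      rw [hNr, Real.log_mul (by positivity) (by positivity), Real.log_mul (by norm_num) (by positivity), ← hL]
      have h6 : Real.log g ≤ g := (Real.log_le_sub_one_of_pos (by linarith)).trans (by linarith)
      have h7 : Real.log 4 ≤ 4 := (Real.log_le_sub_one_of_pos (by norm_num)).trans (by norm_num)
      linarith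
    have k2 : ((H.filter (fun n => (2 : ℝ) ^ i / (4 * L ^ C) ≤
        ∑ m ∈ Icc 1 (2 ^ (i + 1)), ppw (fv α γ n m).natAbs)).card : ℝ) * ((2 : ℝ) ^ i / (4 * L ^ C)) ≤
        2 ^ (i + 1) * (4 * (2 * g * Real.sqrt X) * (2 * L)) := by
      refine k1.trans ?_
      push_cast
      gcongr
    rw [← le_div_iff₀ (by positivity)] at k2
    refine k2.trans (le_of_eq ?_)
    rw [pow_succ (2 : ℝ) i, pow_succ L C]
    field_simp
    ring

lemma two_le_sq {L : ℝ} (h : 1000 ≤ L) : 2 * L ≤ L ^ 2 := by nlinarith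

lemma w3_aux {L : ℝ} {C : ℕ} (hL1 : 1 ≤ L) (h : 16 ^ (C + 3) ≤ L) : 8 * L ^ C ≤ (L / 16) ^ (C + 2) := by
  rw [div_pow, le_div_iff₀ (by positivity)]
  have e3 : (8 : ℝ) * L ^ C * 16 ^ (C + 2) ≤ 16 ^ (C + 3) * L ^ C := by
    have : (16 : ℝ) ^ (C + 3) = 16 * 16 ^ (C + 2) := by ring
    rw [this]
    have : 0 ≤ L ^ C * (16 : ℝ) ^ (C + 2) := by positivity
    nlinarith
  refine e3.trans ?_
  calc (16 : ℝ) ^ (C + 3) * L ^ C ≤ L * L ^ C := by gcongr
    _ = L ^ (C + 1) := by ring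
    _ ≤ L ^ (C + 2) := pow_le_pow_right₀ hL1 (by omega)

lemma w4_aux {L L' s y : ℝ} {C : ℕ} (hL : 1000 ≤ L) (hL3 : L' ≤ 2 * L) (hs : s ≤ y / L ^ (C + 3)) (hy : 0 < y)
    (hL' : 0 ≤ L') : 2 * (s * L') ≤ y / (8 * L ^ C) := by
  have hL0 : 0 < L := by linarith
  calc 2 * (s * L') ≤ 2 * ((y / L ^ (C + 3)) * (2 * L)) := by
        apply mul_le_mul_of_nonneg_left _ (by norm_num)
        exact mul_le_mul hs hL3 hL' (by positivity)
    _ = (y / (8 * L ^ C)) * (32 / L ^ 2) := by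
        rw [pow_add L C 3]
        field_simp
        ring
    _ ≤ (y / (8 * L ^ C)) * 1 := by
        apply mul_le_mul_of_nonneg_left _ (by positivity)
        rw [div_le_one (by positivity)]
        nlinarith
    _ = _ := mul_one _

lemma w6_aux (y : ℝ) {T : ℝ} (hT : 0 < T) :
    y / T = y / (8 * T) + y / (8 * T) + y / (4 * T) + 2 * (y / (4 * T)) := by
  field_simp
  ring

lemma hbound_aux {L L' g X N P I K : ℝ} {A A' C : ℕ} (hI0 : 0 ≤ I) (hL : 1000 ≤ L) (hX0 : 0 < X) (hNr : N = g * X) (hg0 : 0 ≤ g)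
    (hg : 500 * g ≤ L) (hI : I ≤ 2 * L) (hK : K ≤ 5 * P) (hP : P = L ^ (C + 3)) (hA' : A' = A + 3 * C + 20)
    (hL2 : L ≤ L') : I * K * (16 * N * L ^ (2 * C) / L' ^ A') ≤ X / L ^ A / 4 := by
  have hL0 : 0 < L := by linarith
  have hL1 : 1 ≤ L := by linarith
  have hP0 : 0 < P := by rw [hP]; positivity
  have h0 : 0 ≤ 16 * N * L ^ (2 * C) / L' ^ A' := by
    rw [hNr]
    have : 0 < L' := by linarith
    positivity
  calc I * K * (16 * N * L ^ (2 * C) / L' ^ A') ≤ (2 * L) * (5 * P) * (16 * N * L ^ (2 * C) / L' ^ A') := by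
        apply mul_le_mul_of_nonneg_right _ h0
        rcases le_or_gt 0 K with hk | hk
        · exact mul_le_mul hI hK hk (by positivity)
        · have : I * K ≤ 0 := mul_nonpos_of_nonneg_of_nonpos hI0 hk.le
          have : 0 ≤ (2 * L) * (5 * P) := by positivity
          linarith
    _ ≤ (2 * L) * (5 * P) * (16 * (g * X) * L ^ (2 * C) / L ^ A') := by
        rw [← hNr]
        have hN : 0 ≤ N := by rw [hNr]; positivity
        gcongr
    _ = (160 * g) * (X / L ^ A) * (L ^ (3 * C + 4) / L ^ (3 * C + 20)) := by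
        rw [hP, hA']
        have e1 : L ^ (A + 3 * C + 20) = L ^ A * L ^ (3 * C + 20) := by ring
        rw [e1]
        have e2 : L ^ (3 * C + 4) = L * L ^ (C + 3) * L ^ (2 * C) := by
          ring
        rw [e2]
        field_simp
        ring
    _ ≤ L * (X / L ^ A) * (1 / (4 * L)) := by
        have e3 : L ^ (3 * C + 4) / L ^ (3 * C + 20) ≤ 1 / (4 * L) := by
          rw [div_le_div_iff₀ (by positivity) (by positivity), one_mul]
          calc L ^ (3 * C + 4) * (4 * L) ≤ L ^ (3 * C + 4) * (L * L) := by gcongr; linarith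
            _ = L ^ (3 * C + 6) := by ring
            _ ≤ _ := pow_le_pow_right₀ hL1 (by omega)
        gcongr
        linarith
    _ = _ := by field_simp

lemma hk0_aux {L g X M I : ℝ} {A C : ℕ} (hL : 1000 ≤ L) (hX0 : 0 < X) (hM0 : 0 < M) (hMM : M * M = X)
    (hML : L ^ (A + C + 5) ≤ M) (hg0 : 0 ≤ g) (hg : 500 * g ≤ L) (hI : I ≤ 2 * L) :
    I * (128 * g * M * L ^ (C + 1)) ≤ X / L ^ A / 4 := by
  have hL0 : 0 < L := by linarith
  have hL1 : 1 ≤ L := by linarith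
  calc I * (128 * g * M * L ^ (C + 1)) ≤ (2 * L) * (128 * g * M * L ^ (C + 1)) := by gcongr
    _ = (256 * g) * (M * L ^ (C + 2)) := by ring
    _ ≤ L * (M * L ^ (C + 2)) := by gcongr; linarith
    _ = M * L ^ (C + 3) := by ring
    _ ≤ X / L ^ A / 4 := by
        rw [div_div, le_div_iff₀ (by positivity)]
        calc M * L ^ (C + 3) * (L ^ A * 4) = M * (L ^ (C + 3) * L ^ A * 4) := by ring
          _ ≤ M * (L ^ (C + 3) * L ^ A * L) := by gcongr; linarith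
          _ = M * L ^ (A + C + 4) := by ring
          _ ≤ M * L ^ (A + C + 5) := mul_le_mul_of_nonneg_left (pow_le_pow_right₀ hL1 (by omega)) hM0.le
          _ ≤ M * M := by gcongr
          _ = X := hMM

theorem main_th {θ : ℝ} (hθ : 1 / 8 ≤ θ) (hθ1 : θ ≤ 1) (hS : SIAt θ) (hLZ : S_LZ) {α γ : ℤ} (hα : α ≠ 0)
    (A C : ℕ) :
    ∃ D B : ℕ, ∀ E : ℕ, ∃ X₀ : ℕ, ∀ X : ℕ, X₀ ≤ X → ∀ z : ℕ, Real.log X ^ B ≤ z → (z : ℝ) ≤ Real.log X ^ E →
      ∀ H : Finset ℤ, (∀ n ∈ H, |n| ≤ X ∧ ¬ GoodT α γ θ C D X z n) →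
        (H.card : ℝ) ≤ (X : ℝ) / Real.log X ^ A := by
  classical
  obtain ⟨A', hA'⟩ : ∃ A', A' = A + 3 * C + 20 := ⟨_, rfl⟩
  obtain ⟨D₁, B₁, hB₁⟩ := ms hθ hS hLZ (γ := γ) hα A'
  obtain ⟨D₂, B₂, hB₂⟩ := ms hθ hS hLZ (γ := -γ) (neg_ne_zero.2 hα) A'
  obtain ⟨D', hD'⟩ : ∃ D', D' = max D₁ D₂ := ⟨_, rfl⟩
  obtain ⟨B', hB'⟩ : ∃ B', B' = max B₁ B₂ := ⟨_, rfl⟩
  refine ⟨D' + 1 + (C + 10), B' + 1, fun E => ?_⟩
  obtain ⟨N₁, h1⟩ := hB₁ E
  obtain ⟨N₂, h1'⟩ := hB₂ E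
  obtain ⟨X₁, h2⟩ := near_abs (γ := γ) hα (C + 2) (E + 1)
  obtain ⟨X₄, h5⟩ := Vz_inv_small E
  obtain ⟨X₅, h6⟩ := Vz_inv_small (E + 1)
  obtain ⟨g, hg⟩ : ∃ g, g = kap α γ + 1 := ⟨_, rfl⟩
  have hg1 : 1 ≤ g := by
    rw [hg]
    linarith [(kap_ge hα γ).2.2]
  obtain ⟨X₂, h3⟩ := Filter.eventually_atTop.1 (ev_log (A + C + 5) (s := 1 / 2) (by norm_num)
    (2 ^ B' + 4 * g * 2 ^ D' + 16 ^ (C + 3) + 16 ^ (E + 2) + X₁ + 16 * X₅ + 1000 + 500 * g))
  refine ⟨N₁ + N₂ + X₂ + X₄ + 3, fun X hX z hz1 hz2 H hH => ?_⟩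
  have hX1 : 1 ≤ X := by omega
  have hX0 : (0 : ℝ) < X := by exact_mod_cast hX1
  have hX1r : (1 : ℝ) ≤ X := by exact_mod_cast hX1
  obtain ⟨hLb, hLp⟩ := h3 X (by omega)
  replace h5 := h5 X (by omega)
  obtain ⟨N, hN⟩ : ∃ N, N = (α.natAbs + γ.natAbs + 1) * X := ⟨_, rfl⟩
  have hXN : X ≤ N := by
    rw [hN]
    nlinarith [Nat.zero_le (α.natAbs * X), Nat.zero_le (γ.natAbs * X)]
  have hNr : (N : ℝ) = g * X := by
    rw [hN, hg, ← kap_nat]
    push_cast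
    ring
  have c1 := h1 N (by omega)
  have c1' := h1' N (by omega)
  have hN0 : (0 : ℝ) < N := by rw [hNr]; positivity
  have hL2 : Real.log X ≤ Real.log N := Real.log_le_log hX0 (by exact_mod_cast hXN)
  have h2B : (1 : ℝ) ≤ 2 ^ B' := one_le_pow₀ (by norm_num)
  have h2D : (1 : ℝ) ≤ 2 ^ D' := one_le_pow₀ (by norm_num)
  have h8C : (1 : ℝ) ≤ 16 ^ (C + 3) := one_le_pow₀ (by norm_num)
  have h8E : (1 : ℝ) ≤ 16 ^ (E + 2) := one_le_pow₀ (by norm_num)
  have hX10 : (0 : ℝ) ≤ X₁ := Nat.cast_nonneg _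
  have hX50 : (0 : ℝ) ≤ X₅ := Nat.cast_nonneg _
  have hgD : 0 ≤ 4 * g * 2 ^ D' := by positivity
  have hL3 : Real.log N ≤ 2 * Real.log X := by
    rw [hNr, Real.log_mul (by positivity) hX0.ne']
    have h6 : Real.log g ≤ g := (Real.log_le_sub_one_of_pos (by linarith)).trans (by linarith)
    linarith
  have hpow : (N : ℝ) ^ (θ / 2) ≤ g * (X : ℝ) ^ (θ / 2) := by
    rw [hNr, Real.mul_rpow (by linarith) hX0.le]
    apply mul_le_mul_of_nonneg_right _ (by positivity)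
    calc g ^ (θ / 2) ≤ g ^ (1 : ℝ) := Real.rpow_le_rpow_of_exponent_le hg1 (by linarith)
      _ = g := Real.rpow_one g
  have hXθ : 1 ≤ (X : ℝ) ^ (θ / 2) := Real.one_le_rpow hX1r (by linarith)
  have hLX : ∀ y : ℝ, (X : ℝ) ^ (θ / 2) / 2 ≤ y → Real.log X / 8 - 2 ≤ Real.log (y ^ 2) := by
    intro y hy
    have e1 : Real.log ((X : ℝ) ^ (θ / 2) / 2) ≤ Real.log y := Real.log_le_log (by positivity) hy
    rw [Real.log_div (by positivity) (by norm_num), Real.log_rpow hX0] at e1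
    have e2 : Real.log 2 ≤ 1 := (Real.log_le_sub_one_of_pos (by norm_num)).trans (by norm_num)
    rw [Real.log_pow]
    push_cast
    have e3 : 0 ≤ Real.log X := Real.log_nonneg hX1r
    have e4 := mul_le_mul_of_nonneg_right hθ e3
    linarith
  have hVN : ∀ h : (Vz z)⁻¹ ≤ Real.log X, (Vz z)⁻¹ ≤ Real.log N := fun h => h.trans hL2
  obtain ⟨L, hLd⟩ : ∃ L, L = Real.log (X : ℝ) := ⟨_, rfl⟩
  obtain ⟨L', hLd'⟩ : ∃ L', L' = Real.log (N : ℝ) := ⟨_, rfl⟩
  rw [← hLd] at hLb hLp hL2 hL3 hz1 hz2 h5 hLX hVN ⊢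
  rw [← hLd'] at c1 c1' hL2 hL3 hVN
  have hL100 : 1000 ≤ L := by linarith
  have hL0 : 0 < L := by linarith
  have hL1 : 1 ≤ L := by linarith
  have hL0' : 0 < L' := by linarith
  have hL1' : 1 ≤ L' := by linarith
  have hzB : L' ^ B' ≤ z := by
    calc L' ^ B' ≤ (2 * L) ^ B' := pow_le_pow_left₀ hL0'.le hL3 _
      _ = 2 ^ B' * L ^ B' := mul_pow _ _ _
      _ ≤ L * L ^ B' := mul_le_mul_of_nonneg_right (by linarith) (by positivity)
      _ = L ^ (B' + 1) := by ring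
      _ ≤ z := hz1
  have hz2' : 2 ≤ z := by
    have h6 : L ^ 1 ≤ L ^ (B' + 1) := pow_le_pow_right₀ hL1 (by omega)
    have : (2 : ℝ) ≤ z := by linarith
    exact_mod_cast this
  have hVX : (Vz z)⁻¹ ≤ L := h5 z (by omega) hz2
  replace c1 := c1 z ((pow_le_pow_right₀ hL1' (by rw [hB']; exact le_max_left _ _)).trans hzB)
    (hz2.trans (pow_le_pow_left₀ hL0.le hL2 _)) (hVN hVX)
  replace c1' := c1' z ((pow_le_pow_right₀ hL1' (by rw [hB']; exact le_max_right _ _)).trans hzB)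
    (hz2.trans (pow_le_pow_left₀ hL0.le hL2 _)) (hVN hVX)
  obtain ⟨M, hM⟩ : ∃ M, M = Real.sqrt X := ⟨_, rfl⟩
  have hM0 : 0 < M := by rw [hM]; exact Real.sqrt_pos.2 hX0
  have hMM : M * M = X := by rw [hM]; exact Real.mul_self_sqrt hX0.le
  have hMr : M = (X : ℝ) ^ (1 / 2 : ℝ) := by rw [hM, Real.sqrt_eq_rpow]
  have hML : L ^ (A + C + 5) ≤ M := by rw [hMr]; exact hLp
  -- the grid
  obtain ⟨P, hP⟩ : ∃ P, P = L ^ (C + 3) := ⟨_, rfl⟩
  have hLP : L ≤ P := by rw [hP]; exact le_self_pow₀ hL1 (by omega)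
  obtain ⟨I, hI⟩ : ∃ I, I = ⌊L⌋₊ + 1 := ⟨_, rfl⟩
  obtain ⟨K, hK⟩ : ∃ K, K = ⌊4 * P⌋₊ + 1 := ⟨_, rfl⟩
  have hIr : (I : ℝ) ≤ 2 * L := by
    rw [hI]
    push_cast
    have := Nat.floor_le hL0.le
    linarith
  have hKr : (K : ℝ) ≤ 5 * P := by
    rw [hK]
    push_cast
    have := Nat.floor_le (show 0 ≤ 4 * P by linarith)
    linarith
  have key : ∀ n ∈ H, (∃ i ∈ range I, 2 ^ (2 * i) ≤ X ∧
      (2 : ℝ) ^ i / (4 * L ^ C) ≤ ∑ m ∈ Icc 1 (2 ^ (i + 1)), ppw (fv α γ n m).natAbs) ∨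
      (∃ i ∈ range I, ∃ k ∈ range K, 0 < k * st P i ∧
        (N : ℝ) ^ (θ / 2) * L' ^ D' ≤ ((k * st P i : ℕ) : ℝ) ∧ (k * st P i) ^ 2 ≤ N ∧
        (((k * st P i : ℕ) : ℝ) / (4 * L ^ C) ≤ ‖cvs α γ (DZ z) (k * st P i) N n‖ ∨
         ((k * st P i : ℕ) : ℝ) / (4 * L ^ C) ≤ ‖cvs (-α) (-γ) (DZ z) (k * st P i) N (-n)‖)) := by
    intro n hn
    obtain ⟨m1, m2⟩ := hH n hn
    unfold GoodT at m2
    push Not at m2
    obtain ⟨y, hy1, hy2, hlt⟩ := m2
    rw [← hLd] at hy1 hlt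
    have hyL : L ^ (D' + 1 + (C + 10)) ≤ y := by
      refine le_trans ?_ hy1
      exact le_mul_of_one_le_left (by positivity) hXθ
    have hy4P : 4 * P ≤ y := by
      refine le_trans ?_ hyL
      calc 4 * P ≤ L * L ^ (C + 3) := by rw [hP]; exact mul_le_mul_of_nonneg_right (by linarith) (by positivity)
        _ = L ^ (C + 4) := by ring
        _ ≤ _ := pow_le_pow_right₀ hL1 (by omega)
    obtain ⟨i, k, g1, g2, g3, g4, g5, g6, g7, g8⟩ := grid_near (P := P) (by linarith) hy4P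
    have hy2r : (y : ℝ) ^ 2 ≤ X := by exact_mod_cast hy2
    have hiX : 2 ^ (2 * i) ≤ X := by
      have : 2 ^ (2 * i) = (2 ^ i) ^ 2 := by ring
      rw [this]
      exact (Nat.pow_le_pow_left g1 2).trans hy2
    have hiI : i ∈ range I := by
      rw [mem_range, hI, Nat.lt_succ_iff]
      apply Nat.le_floor
      have e1 : Real.log ((2 : ℝ) ^ (2 * i)) ≤ Real.log X := by
        apply Real.log_le_log (by positivity)
        exact_mod_cast hiX
      rw [Real.log_pow, ← hLd] at e1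
      push_cast at e1
      have e2 : 1 / 2 ≤ Real.log 2 := by
        have := Real.log_two_gt_d9
        linarith
      have e3 : (0 : ℝ) ≤ i := Nat.cast_nonneg _
      have e4 := mul_le_mul_of_nonneg_left e2 e3
      linarith
    have hkK : k ∈ range K := by
      rw [mem_range, hK, Nat.lt_succ_iff]
      exact Nat.le_floor g6
    have hPC : P = L ^ (C + 3) := hP
    obtain ⟨s, hs⟩ : ∃ s, s = st P i := ⟨_, rfl⟩
    rw [← hs] at g3 g4 g5 g7 g8
    obtain ⟨y', hy'⟩ : ∃ y', y' = k * s := ⟨_, rfl⟩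
    rw [← hy'] at g7 g8
    have hy0 : (0 : ℝ) < y := lt_of_lt_of_le (by positivity) hyL
    have hy'0 : (0 : ℝ) < y' := by linarith
    have hy'2 : y' ^ 2 ≤ X := sq_le_of g8 hy2
    have hyX : (X : ℝ) ^ (θ / 2) ≤ y := by
      refine le_trans ?_ hy1
      exact le_mul_of_one_le_right (by positivity) (one_le_pow₀ hL1)
    have hlX := hLX y' (by linarith)
    have hlX2 : L / 16 ≤ Real.log ((y' : ℝ) ^ 2) := by linarith
    have hyN : (N : ℝ) ^ (θ / 2) * L' ^ D' ≤ (y' : ℝ) := by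
      refine le_trans ?_ g7
      calc (N : ℝ) ^ (θ / 2) * L' ^ D' ≤ (g * (X : ℝ) ^ (θ / 2)) * (2 * L) ^ D' := by gcongr
        _ = (g * 2 ^ D') * ((X : ℝ) ^ (θ / 2) * L ^ D') := by rw [mul_pow]; ring
        _ ≤ (L / 2) * ((X : ℝ) ^ (θ / 2) * L ^ D') := by
            apply mul_le_mul_of_nonneg_right _ (by positivity)
            linarith
        _ = ((X : ℝ) ^ (θ / 2) * L ^ (D' + 1)) / 2 := by ring
        _ ≤ (y : ℝ) / 2 := by
            apply div_le_div_of_nonneg_right _ (by norm_num)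
            refine le_trans ?_ hy1
            apply mul_le_mul_of_nonneg_left _ (by positivity)
            exact pow_le_pow_right₀ hL1 (by omega)
    by_cases hpp : (2 : ℝ) ^ i / (4 * L ^ C) ≤ ∑ m ∈ Icc 1 (2 ^ (i + 1)), ppw (fv α γ n m).natAbs
    · left
      exact ⟨i, hiI, hiX, hpp⟩
    right
    rw [not_le] at hpp
    refine ⟨i, hiI, k, hkK, ?_⟩
    rw [← hs, ← hy']
    refine ⟨by exact_mod_cast hy'0, hyN, hy'2.trans hXN, ?_⟩
    -- the prime powers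
    have p1 : ∑ m ∈ Icc 1 y, ppw (fv α γ n m).natAbs ≤ y / (4 * L ^ C) := by
      have a1 : ∑ m ∈ Icc 1 y, ppw (fv α γ n m).natAbs ≤ ∑ m ∈ Icc 1 (2 ^ (i + 1)), ppw (fv α γ n m).natAbs := by
        apply sum_le_sum_of_subset_of_nonneg (Icc_subset_Icc le_rfl g2.le)
        intro m _ _
        exact ppw_nn _
      have a2 : (2 : ℝ) ^ i / (4 * L ^ C) ≤ y / (4 * L ^ C) := by
        apply div_le_div_of_nonneg_right _ (by positivity)
        exact_mod_cast g1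
      linarith
    have p1' : 0 ≤ ∑ m ∈ Icc 1 y, ppw (fv α γ n m).natAbs := sum_nonneg fun _ _ => ppw_nn _
    have p2 : ∑ m ∈ Icc 1 y, ArithmeticFunction.vonMangoldt (fv α γ n m).natAbs =
        ∑ m ∈ Icc 1 y, thp (fv α γ n m).natAbs + ∑ m ∈ Icc 1 y, ppw (fv α γ n m).natAbs := by
      rw [← sum_add_distrib]
      exact sum_congr rfl fun m _ => vm_split _
    have w1 := grid_step (α := α) (γ := γ) (n := n) (X := X) (N := N) (y := y) (s := s) (z := z) (by rw [hN]) m1 hy2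
      g3 (by rw [← hLd']; exact hVN hVX)
    rw [← g5, ← hy', ← hLd'] at w1
    have hX' : ((y' ^ 2 : ℕ) : ℝ) = (y' : ℝ) ^ 2 := by push_cast; rfl
    have hy'L : L ≤ y' := by
      have e1 : L ^ 2 ≤ L ^ (D' + 1 + (C + 10)) := pow_le_pow_right₀ hL1 (by omega)
      have e2 : L ^ 2 ≤ y := e1.trans hyL
      have e3 := two_le_sq hL100
      linarith
    have hX'L : L ≤ (y' : ℝ) ^ 2 := hy'L.trans (le_self_pow₀ (hL1.trans hy'L) (by norm_num))
    have w2 := h2 (y' ^ 2) (by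
        have : (X₁ : ℝ) ≤ ((y' ^ 2 : ℕ) : ℝ) := by rw [hX']; linarith
        exact_mod_cast this) z hz2' (by
        rw [hX']
        have e1 : 0 < L / 16 := by positivity
        have e2 : (16 : ℝ) ^ (E + 1) ≤ L / 16 := by
          rw [le_div_iff₀ (by norm_num)]
          have : (16 : ℝ) ^ (E + 1) * 16 = 16 ^ (E + 2) := by ring
          linarith
        have e4 : (1 : ℝ) ≤ 16 ^ (E + 1) := one_le_pow₀ (by norm_num)
        calc (z : ℝ) ≤ L ^ E := hz2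
          _ = 16 ^ E * (L / 16) ^ E := by rw [← mul_pow]; congr 1; ring
          _ ≤ (L / 16) * (L / 16) ^ E := by
              apply mul_le_mul_of_nonneg_right _ (by positivity)
              refine le_trans ?_ e2
              exact pow_le_pow_right₀ (by norm_num) (by omega)
          _ = (L / 16) ^ (E + 1) := by ring
          _ ≤ Real.log ((y' : ℝ) ^ 2) ^ (E + 1) := pow_le_pow_left₀ e1.le hlX2 _) (by
        apply h6 (y' ^ 2) _ z (by omega)
        · rw [hX']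
          have e1 : 0 < L / 16 := by positivity
          have e2 : (16 : ℝ) ^ (E + 1) ≤ L / 16 := by
            rw [le_div_iff₀ (by norm_num)]
            have : (16 : ℝ) ^ (E + 1) * 16 = 16 ^ (E + 2) := by ring
            linarith
          calc (z : ℝ) ≤ L ^ E := hz2
            _ = 16 ^ E * (L / 16) ^ E := by rw [← mul_pow]; congr 1; ring
            _ ≤ (L / 16) * (L / 16) ^ E := by
                apply mul_le_mul_of_nonneg_right _ (by positivity)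
                refine le_trans ?_ e2
                exact pow_le_pow_right₀ (by norm_num) (by omega)
            _ = (L / 16) ^ (E + 1) := by ring
            _ ≤ Real.log ((y' : ℝ) ^ 2) ^ (E + 1) := pow_le_pow_left₀ e1.le hlX2 _
        · have : (X₅ : ℝ) ≤ ((y' ^ 2 : ℕ) : ℝ) := by rw [hX']; linarith
          exact_mod_cast this) n y' N le_rfl (by
        intro m hm
        exact fv_abs (by rw [hN]) m1 hy'2 hm)
    rw [hX', Real.sqrt_sq hy'0.le] at w2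
    have w3 : (y' : ℝ) / Real.log ((y' : ℝ) ^ 2) ^ (C + 2) ≤ y / (8 * L ^ C) := by
      have e1 : 0 < L / 16 := by positivity
      have e2 : (y' : ℝ) ≤ y := by exact_mod_cast g8
      calc (y' : ℝ) / Real.log ((y' : ℝ) ^ 2) ^ (C + 2) ≤ y / (L / 16) ^ (C + 2) := by
            apply div_le_div₀ hy0.le e2 (by positivity)
            exact pow_le_pow_left₀ e1.le hlX2 _
        _ ≤ y / (8 * L ^ C) := by
            apply div_le_div_of_nonneg_left hy0.le (by positivity)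
            exact w3_aux (C := C) hL1 (by linarith)
    have w4 : 2 * ((s : ℝ) * L') ≤ y / (8 * L ^ C) := by
      rw [hPC] at g4
      exact w4_aux hL100 hL3 g4 hy0 hL0'.le
    have w5 : |∑ m ∈ Icc 1 y, thp (fv α γ n m).natAbs - Sz α γ n z * y| ≤
        |∑ m ∈ Icc 1 y, ArithmeticFunction.vonMangoldt (fv α γ n m).natAbs - Sz α γ n z * y| + y / (4 * L ^ C) := by
      rw [p2]
      have e : ∑ m ∈ Icc 1 y, thp (fv α γ n m).natAbs - Sz α γ n z * y =
          (∑ m ∈ Icc 1 y, thp (fv α γ n m).natAbs +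
            ∑ m ∈ Icc 1 y, ppw (fv α γ n m).natAbs - Sz α γ n z * y) -
          ∑ m ∈ Icc 1 y, ppw (fv α γ n m).natAbs := by ring
      rw [e]
      refine (abs_sub _ _).trans (add_le_add le_rfl ?_)
      rw [abs_of_nonneg p1']
      exact p1
    have w6 := w6_aux (y : ℝ) (pow_pos hL0 C)
    have w7 : (y' : ℝ) / (4 * L ^ C) ≤ y / (4 * L ^ C) := by
      apply div_le_div_of_nonneg_right _ (by positivity)
      exact_mod_cast g8
    rcases le_or_gt ((y' : ℝ) / (4 * L ^ C)) ‖cvs α γ (DZ z) y' N n‖ with w8 | w8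
    · exact Or.inl w8
    · right
      linarith
  -- the three sets
  obtain ⟨P0, hP0⟩ : ∃ P0 : ℤ → Prop, P0 = fun n => ∃ i ∈ range I, 2 ^ (2 * i) ≤ X ∧
      (2 : ℝ) ^ i / (4 * L ^ C) ≤ ∑ m ∈ Icc 1 (2 ^ (i + 1)), ppw (fv α γ n m).natAbs := ⟨_, rfl⟩
  obtain ⟨P1, hP1⟩ : ∃ P1 : ℤ → Prop, P1 = fun n => ∃ i ∈ range I, ∃ k ∈ range K, 0 < k * st P i ∧
        (N : ℝ) ^ (θ / 2) * L' ^ D' ≤ ((k * st P i : ℕ) : ℝ) ∧ (k * st P i) ^ 2 ≤ N ∧
        ((k * st P i : ℕ) : ℝ) / (4 * L ^ C) ≤ ‖cvs α γ (DZ z) (k * st P i) N n‖ := ⟨_, rfl⟩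
  obtain ⟨P2, hP2⟩ : ∃ P2 : ℤ → Prop, P2 = fun n => ∃ i ∈ range I, ∃ k ∈ range K, 0 < k * st P i ∧
        (N : ℝ) ^ (θ / 2) * L' ^ D' ≤ ((k * st P i : ℕ) : ℝ) ∧ (k * st P i) ^ 2 ≤ N ∧
        ((k * st P i : ℕ) : ℝ) / (4 * L ^ C) ≤ ‖cvs (-α) (-γ) (DZ z) (k * st P i) N n‖ := ⟨_, rfl⟩
  have hcov : H ⊆ H.filter P0 ∪ (H.filter P1 ∪ H.filter (fun n => P2 (-n))) := by
    intro n hn
    rw [mem_union, mem_union, mem_filter, mem_filter, mem_filter, hP0, hP1, hP2]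
    rcases key n hn with h | ⟨i, hi, k, hk, q1, q2, q3, q4 | q4⟩
    · exact Or.inl ⟨hn, h⟩
    · exact Or.inr (Or.inl ⟨hn, i, hi, k, hk, q1, q2, q3, q4⟩)
    · exact Or.inr (Or.inr ⟨hn, i, hi, k, hk, q1, q2, q3, q4⟩)
  have hbound : (I : ℝ) * K * (16 * N * L ^ (2 * C) / L' ^ A') ≤ (X : ℝ) / L ^ A / 4 := by
    exact hbound_aux (Nat.cast_nonneg _) hL100 hX0 hNr (by linarith) (by linarith) hIr hKr hP hA' hL2
  have hk1 : ((H.filter P1).card : ℝ) ≤ (X : ℝ) / L ^ A / 4 := by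
    refine le_trans ?_ hbound
    apply corr_bad (α := α) (γ := γ) (θ := θ) (D₁ := D') (A' := A') hL0 hL0' _ P I K (H.filter P1)
    · intro n hn
      refine (hH n (mem_filter.1 hn).1).1.trans ?_
      have : X ≤ (α.natAbs + γ.natAbs + 1) * N := hXN.trans (Nat.le_mul_of_pos_left N (Nat.succ_pos _))
      exact_mod_cast this
    · intro n hn
      have := (mem_filter.1 hn).2
      rw [hP1] at this
      exact this
    · intro y hy1 hy2
      apply c1 y _ hy2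
      refine le_trans ?_ hy1
      apply mul_le_mul_of_nonneg_left _ (by positivity)
      exact pow_le_pow_right₀ hL1' (by rw [hD']; exact le_max_left _ _)
  have hk2 : ((H.filter (fun n => P2 (-n))).card : ℝ) ≤ (X : ℝ) / L ^ A / 4 := by
    refine le_trans ?_ hbound
    have e : (H.filter (fun n => P2 (-n))).card = ((H.filter (fun n => P2 (-n))).image (fun n : ℤ => -n)).card :=
      (card_image_of_injective _ neg_injective).symm
    rw [e]
    apply corr_bad (α := -α) (γ := -γ) (θ := θ) (D₁ := D') (A' := A') hL0 hL0' _ P I K _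
    · intro n hn
      rw [mem_image] at hn
      obtain ⟨n', hn', rfl⟩ := hn
      rw [abs_neg, Int.natAbs_neg, Int.natAbs_neg]
      refine (hH n' (mem_filter.1 hn').1).1.trans ?_
      have : X ≤ (α.natAbs + γ.natAbs + 1) * N := hXN.trans (Nat.le_mul_of_pos_left N (Nat.succ_pos _))
      exact_mod_cast this
    · intro n hn
      rw [mem_image] at hn
      obtain ⟨n', hn', rfl⟩ := hn
      have := (mem_filter.1 hn').2
      rw [hP2] at this
      exact this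
    · intro y hy1 hy2
      apply c1' y _ hy2
      refine le_trans ?_ hy1
      apply mul_le_mul_of_nonneg_left _ (by positivity)
      exact pow_le_pow_right₀ hL1' (by rw [hD']; exact le_max_right _ _)
  have hk0 : ((H.filter P0).card : ℝ) ≤ (X : ℝ) / L ^ A / 4 := by
    have a1 := pp_bad (α := α) (γ := γ) (X := X) (I := I) (C := C) hg hg1 hLd hX1 (by linarith) (H.filter P0)
      (fun n hn => (hH n (mem_filter.1 hn).1).1) (fun n hn => by
        have := (mem_filter.1 hn).2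
        rw [hP0] at this
        exact this)
    refine a1.trans ?_
    rw [← hM]
    exact hk0_aux hL100 hX0 hM0 hMM hML (by linarith) (by linarith) hIr
  have hfin : (H.card : ℝ) ≤ ((H.filter P0).card : ℝ) + (((H.filter P1).card : ℝ) +
      ((H.filter (fun n => P2 (-n))).card : ℝ)) := by
    have e1 := card_le_card hcov
    have e2 := card_union_le (H.filter P0) (H.filter P1 ∪ H.filter (fun n => P2 (-n)))
    have e3 := card_union_le (H.filter P1) (H.filter (fun n => P2 (-n)))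
    exact_mod_cast e1.trans (e2.trans (Nat.add_le_add_left e3 _))
  have hpos : 0 ≤ (X : ℝ) / L ^ A := by positivity
  linarith

end Pool.Agent.V5helper51.CM
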