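import Pool.Agent.V5helper51.CM.Win

/-!
# The mean square of the correlations
-/

set_option autoImplicit false

namespace Pool.Agent.V5helper51.CM

open Finset
open Pool.Agent.H373R2.T7 (lamz Vz)
open Pool.Agent.R460.SB
open Pool.Agent.R460.SQ (DZ bd_DZ cls)
open Pool.Agent.Q236.CR (S_LZ)
open Pool.Agent.V5helper51.CR6 (SIAt)
open Pool.Agent.Y614.GJ.Core (ev_log)

theorem ms {θ : ℝ} (hθ : 1 / 8 ≤ θ) (hS : SIAt θ) (hLZ : S_LZ) {α γ : ℤ} (hα : α ≠ 0) (A : ℕ) :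
    ∃ D B : ℕ, ∀ E : ℕ, ∃ N₀ : ℕ, ∀ N : ℕ, N₀ ≤ N → ∀ z : ℕ, Real.log N ^ B ≤ z → (z : ℝ) ≤ Real.log N ^ E →
      (Vz z)⁻¹ ≤ Real.log N → ∀ y : ℕ, (N : ℝ) ^ (θ / 2) * Real.log N ^ D ≤ y → y ^ 2 ≤ N →
      ∑ n ∈ cls ((α.natAbs + γ.natAbs + 1) * N) 1 0, ‖cvs α γ (DZ z) y N n‖ ^ 2 ≤
        N * (y : ℝ) ^ 2 / Real.log N ^ A := by
  obtain ⟨U, hU⟩ : ∃ U, U = 3 * A + 24 := ⟨_, rfl⟩
  obtain ⟨C, K, hwin⟩ := win_dz hθ hS hLZ (A + 10) U
  obtain ⟨K', hK'⟩ : ∃ K', K' = K + A + 10 := ⟨_, rfl⟩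
  obtain ⟨D, hD⟩ : ∃ D, D = K' + C + A + 20 := ⟨_, rfl⟩
  refine ⟨D, A + 10, fun E => ?_⟩
  obtain ⟨N₁, h1⟩ := hwin E
  obtain ⟨N₂, h2⟩ := Filter.eventually_atTop.1 (ev_log 1 (s := 1 / 2) (by norm_num) (400 + 4 * (α.natAbs : ℝ)))
  refine ⟨N₁ + N₂ + 1, fun N hN z hz1 hz2 hV y hy1 hy2 => ?_⟩
  obtain ⟨hLb, -⟩ := h2 N (by omega)
  have hN1 : 1 ≤ N := by omega
  have hN0 : (0 : ℝ) < N := by exact_mod_cast hN1
  have hN1r : (1 : ℝ) ≤ N := by exact_mod_cast hN1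
  have hwin' := h1 N (by omega) z
  have ha0 : (0 : ℝ) ≤ α.natAbs := Nat.cast_nonneg _
  have hbd : ∀ l ∈ Icc 1 N, ‖DZ z l‖ ≤ Real.log N ^ 2 := fun l hl => bd_DZ hV (by linarith) hl
  obtain ⟨L, hL⟩ : ∃ L, L = Real.log (N : ℝ) := ⟨_, rfl⟩
  rw [← hL] at hLb hz1 hz2 hV hy1 hbd hwin' ⊢
  have hL400 : 400 ≤ L := by linarith
  have hL0 : 0 < L := by linarith
  have hL1 : 1 ≤ L := by linarith
  have hθ0 : 0 < θ := by linarith
  -- `y`
  have hNθ : 1 ≤ (N : ℝ) ^ (θ / 2) := Real.one_le_rpow hN1r (by linarith)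
  have hyL : L ^ D ≤ y := by
    refine le_trans ?_ hy1
    exact le_mul_of_one_le_left (by positivity) hNθ
  have hy0 : (0 : ℝ) < y := lt_of_lt_of_le (by positivity) hyL
  have hy2r : (y : ℝ) ^ 2 ≤ N := by exact_mod_cast hy2
  have hyy : L ^ (2 * D) * (N : ℝ) ^ θ ≤ (y : ℝ) ^ 2 := by
    have k1 : ((N : ℝ) ^ (θ / 2) * L ^ D) ^ 2 ≤ (y : ℝ) ^ 2 := pow_le_pow_left₀ (by positivity) hy1 2
    refine le_trans (le_of_eq ?_) k1
    rw [mul_pow, ← pow_mul, mul_comm D 2, ← Real.rpow_natCast ((N : ℝ) ^ (θ / 2)) 2, ← Real.rpow_mul hN0.le]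
    rw [mul_comm]
    congr 2
    push_cast
    ring
  -- `Y`
  obtain ⟨Y, hY⟩ : ∃ Y, Y = ⌊(y : ℝ) ^ 2 / L ^ K'⌋₊ := ⟨_, rfl⟩
  have hYhi : (Y : ℝ) ≤ (y : ℝ) ^ 2 / L ^ K' := by rw [hY]; exact Nat.floor_le (by positivity)
  have hNθ1 : 1 ≤ (N : ℝ) ^ θ := Real.one_le_rpow hN1r (by linarith)
  have hYlo : (N : ℝ) ^ θ * L ^ C ≤ Y := by
    have k1 : (y : ℝ) ^ 2 / L ^ K' < Y + 1 := by rw [hY]; exact Nat.lt_floor_add_one _
    have k2 : (N : ℝ) ^ θ * L ^ (C + 1) ≤ (y : ℝ) ^ 2 / L ^ K' := by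
      rw [le_div_iff₀ (by positivity)]
      refine le_trans ?_ hyy
      have k3 : (N : ℝ) ^ θ * L ^ (C + 1) * L ^ K' = L ^ (C + 1 + K') * (N : ℝ) ^ θ := by ring
      rw [k3]
      exact mul_le_mul_of_nonneg_right (pow_le_pow_right₀ hL1 (by omega)) (by positivity)
    have k4 : (N : ℝ) ^ θ * L ^ C + 1 ≤ (N : ℝ) ^ θ * L ^ (C + 1) := by
      have k5 : 1 ≤ (N : ℝ) ^ θ * L ^ C := one_le_mul_of_one_le_of_one_le hNθ1 (one_le_pow₀ hL1)
      have k6 : (N : ℝ) ^ θ * L ^ (C + 1) = (N : ℝ) ^ θ * L ^ C * L := by ring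
      rw [k6]
      nlinarith
    linarith
  have hY1 : 1 ≤ Y := by
    have : (0 : ℝ) < Y := lt_of_lt_of_le (by positivity) hYlo
    exact_mod_cast this
  have hYK : (Y : ℝ) * L ^ K ≤ N := by
    have k1 : (Y : ℝ) * L ^ K ≤ (y : ℝ) ^ 2 / L ^ K' * L ^ K := mul_le_mul_of_nonneg_right hYhi (by positivity)
    refine k1.trans ?_
    rw [div_mul_eq_mul_div, div_le_iff₀ (by positivity)]
    exact mul_le_mul hy2r (pow_le_pow_right₀ hL1 (by omega)) (by positivity) hN0.le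
  have hYN : Y ≤ N := by
    have : (Y : ℝ) ≤ N := by
      refine le_trans ?_ hYK
      exact le_mul_of_one_le_right (Nat.cast_nonneg _) (one_le_pow₀ hL1)
    exact_mod_cast this
  -- `P`
  obtain ⟨P, hP⟩ : ∃ P, P = ⌈L ^ (A + 8)⌉₊ := ⟨_, rfl⟩
  have hPlo : L ^ (A + 8) ≤ P := by rw [hP]; exact Nat.le_ceil _
  have hPhi : (P : ℝ) ≤ 2 * L ^ (A + 8) := by
    have k1 := Nat.ceil_lt_add_one (show 0 ≤ L ^ (A + 8) by positivity)
    rw [← hP] at k1
    have k2 : 1 ≤ L ^ (A + 8) := one_le_pow₀ hL1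
    linarith
  have hP0 : (0 : ℝ) < P := lt_of_lt_of_le (by positivity) hPlo
  have haP : 2 * (α.natAbs : ℝ) * P ≤ L ^ (A + 10) := by
    calc 2 * (α.natAbs : ℝ) * P ≤ 2 * (α.natAbs : ℝ) * (2 * L ^ (A + 8)) := by gcongr
      _ = 4 * (α.natAbs : ℝ) * L ^ (A + 8) := by ring
      _ ≤ L * L ^ (A + 8) := mul_le_mul_of_nonneg_right (by linarith) (by positivity)
      _ = L ^ (A + 9) := by ring
      _ ≤ L ^ (A + 10) := pow_le_pow_right₀ hL1 (by omega)
  have h1y : (1 : ℝ) ≤ y := (one_le_pow₀ hL1).trans hyL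
  have hmain := circ (G := DZ z) hα (γ := γ) (P := P) hy2 hY1 hYN ((y : ℝ) ^ 2 / L ^ (A + 5)) (by positivity) ?_
  · refine hmain.trans ?_
    -- the first term
    have t1 : (y : ℝ) ^ 2 / L ^ (A + 5) * ∑ l ∈ Icc 1 N, ‖DZ z l‖ ^ 2 ≤ N * (y : ℝ) ^ 2 / L ^ A / 2 := by
      have k1 : ∑ l ∈ Icc 1 N, ‖DZ z l‖ ^ 2 ≤ N * L ^ 4 := by
        refine (sum_le_sum (g := fun _ => L ^ 4) fun l hl => ?_).trans ?_
        · have := pow_le_pow_left₀ (norm_nonneg _) (hbd l hl) 2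
          refine this.trans (le_of_eq ?_)
          ring
        · rw [sum_const, Nat.card_Icc, nsmul_eq_mul, Nat.add_sub_cancel]
      calc (y : ℝ) ^ 2 / L ^ (A + 5) * ∑ l ∈ Icc 1 N, ‖DZ z l‖ ^ 2 ≤ (y : ℝ) ^ 2 / L ^ (A + 5) * (N * L ^ 4) := by
            gcongr
        _ = N * (y : ℝ) ^ 2 / L ^ A * (1 / L) := by
            rw [pow_add]
            field_simp
        _ ≤ N * (y : ℝ) ^ 2 / L ^ A * (1 / 2) := by
            apply mul_le_mul_of_nonneg_left _ (by positivity)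
            exact one_div_le_one_div_of_le (by norm_num) (by linarith)
        _ = _ := by ring
    have t2 : 4 * (y : ℝ) ^ 2 / (Y : ℝ) ^ 2 * ∑ q ∈ Icc 1 (2 * α.natAbs * P), ∑ a ∈ range q,
        ∑ m ∈ range (N + Y), ‖Bw (DZ z) N Y ((a : ℝ) / q) m‖ ^ 2 ≤ N * (y : ℝ) ^ 2 / L ^ A / 2 := by
      have k1 : ∀ q ∈ Icc 1 (2 * α.natAbs * P), ∑ a ∈ range q,
          ∑ m ∈ range (N + Y), ‖Bw (DZ z) N Y ((a : ℝ) / q) m‖ ^ 2 ≤
          L ^ (A + 10) * (N * (Y : ℝ) ^ 2 / L ^ U) := by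
        intro q hq
        rw [mem_Icc] at hq
        have hqL : (q : ℝ) ≤ L ^ (A + 10) := by
          refine le_trans ?_ haP
          exact_mod_cast hq.2
        have hqz : q ≤ z := by
          have : (q : ℝ) ≤ z := hqL.trans hz1
          exact_mod_cast this
        refine (sum_le_sum fun a _ => hwin' q hq.1 hqL hqz hz2 hV a Y hYlo hYK).trans ?_
        rw [sum_const, card_range, nsmul_eq_mul]
        gcongr
      have k2 : ∑ q ∈ Icc 1 (2 * α.natAbs * P), ∑ a ∈ range q,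
          ∑ m ∈ range (N + Y), ‖Bw (DZ z) N Y ((a : ℝ) / q) m‖ ^ 2 ≤
          L ^ (A + 10) * (L ^ (A + 10) * (N * (Y : ℝ) ^ 2 / L ^ U)) := by
        refine (sum_le_sum k1).trans ?_
        rw [sum_const, Nat.card_Icc, nsmul_eq_mul, Nat.add_sub_cancel]
        apply mul_le_mul_of_nonneg_right _ (by positivity)
        push_cast
        exact haP
      have hYr : (0 : ℝ) < Y := by exact_mod_cast hY1
      calc _ ≤ 4 * (y : ℝ) ^ 2 / (Y : ℝ) ^ 2 * (L ^ (A + 10) * (L ^ (A + 10) * (N * (Y : ℝ) ^ 2 / L ^ U))) := by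
            gcongr
        _ = N * (y : ℝ) ^ 2 / L ^ A * (4 / L ^ 4) := by
            rw [hU, show 3 * A + 24 = (A + 10) + (A + 10) + A + 4 by ring, pow_add L (A + 10 + (A + 10) + A) 4,
              pow_add L (A + 10 + (A + 10)) A, pow_add L (A + 10) (A + 10)]
            field_simp
        _ ≤ N * (y : ℝ) ^ 2 / L ^ A * (1 / 2) := by
            apply mul_le_mul_of_nonneg_left _ (by positivity)
            rw [div_le_div_iff₀ (by positivity) (by norm_num)]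
            have : L ≤ L ^ 4 := le_self_pow₀ hL1 (by norm_num)
            linarith
        _ = _ := by ring
    linarith
  · intro s hs1 hs2
    have hsP : (P : ℝ) ≤ s := by exact_mod_cast hs1.le
    have hs0 : (0 : ℝ) < s := by linarith
    have hsY : (s : ℝ) ≤ 6 * Y := by exact_mod_cast hs2
    have hlogs : 1 + Real.log s ≤ 2 * L := by
      have k1 : Real.log s ≤ Real.log (6 * N) := by
        apply Real.log_le_log hs0
        have : (Y : ℝ) ≤ N := by exact_mod_cast hYN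
        linarith
      rw [Real.log_mul (by norm_num) hN0.ne', ← hL] at k1
      have k2 : Real.log 6 ≤ 6 := (Real.log_le_sub_one_of_pos (by norm_num)).trans (by norm_num)
      linarith
    have hlogs0 : 0 ≤ 1 + Real.log s := by
      have : 0 ≤ Real.log s := Real.log_natCast_nonneg s
      linarith
    obtain ⟨W, hW⟩ : ∃ W, W = (y : ℝ) ^ 2 / L ^ (A + 7) := ⟨_, rfl⟩
    have hW0 : 0 < W := by rw [hW]; positivity
    -- `y L ≤ W`
    have a1 : (y : ℝ) * L ≤ W := by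
      rw [hW, le_div_iff₀ (by positivity)]
      have : L * L ^ (A + 7) ≤ y := by
        calc L * L ^ (A + 7) = L ^ (A + 8) := by ring
          _ ≤ L ^ D := pow_le_pow_right₀ hL1 (by omega)
          _ ≤ y := hyL
      calc (y : ℝ) * L * L ^ (A + 7) = y * (L * L ^ (A + 7)) := by ring
        _ ≤ y * y := by gcongr
        _ = _ := by ring
    have a2 : (y : ℝ) ≤ W := by
      refine le_trans ?_ a1
      exact le_mul_of_one_le_right hy0.le hL1
    have a3 : ((y : ℝ) + 1) / s * (39 * y) ≤ 78 * W := by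
      calc ((y : ℝ) + 1) / s * (39 * y) ≤ (2 * y) / L ^ (A + 8) * (39 * y) := by
            gcongr
            · linarith
            · linarith
        _ = 78 * ((y : ℝ) ^ 2 / L ^ (A + 8)) := by ring
        _ ≤ 78 * W := by
            rw [hW]
            gcongr
            norm_num
    have a4 : ((y : ℝ) + 1) / s * (3 * s * (1 + Real.log s)) ≤ 12 * W := by
      have e : ((y : ℝ) + 1) / s * (3 * s * (1 + Real.log s)) = 3 * ((y + 1) * (1 + Real.log s)) := by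
        field_simp
      rw [e]
      calc 3 * (((y : ℝ) + 1) * (1 + Real.log s)) ≤ 3 * ((2 * y) * (2 * L)) := by
            gcongr
            linarith
        _ = 12 * (y * L) := by ring
        _ ≤ 12 * W := by gcongr
    have a5 : 3 * (s : ℝ) * (1 + Real.log s) ≤ 36 * W := by
      calc 3 * (s : ℝ) * (1 + Real.log s) ≤ 3 * (6 * Y) * (2 * L) := by gcongr
        _ = 36 * (Y * L) := by ring
        _ ≤ 36 * ((y : ℝ) ^ 2 / L ^ K' * L) := by gcongr
        _ ≤ 36 * W := by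
            rw [hW]
            apply mul_le_mul_of_nonneg_left _ (by norm_num)
            rw [div_mul_eq_mul_div, div_le_div_iff₀ (by positivity) (by positivity)]
            have : L * L ^ (A + 7) ≤ L ^ K' := by
              calc L * L ^ (A + 7) = L ^ (A + 8) := by ring
                _ ≤ L ^ K' := pow_le_pow_right₀ hL1 (by omega)
            calc (y : ℝ) ^ 2 * L * L ^ (A + 7) = (y : ℝ) ^ 2 * (L * L ^ (A + 7)) := by ring
              _ ≤ _ := by gcongr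
    have hexp : ((((y : ℝ) + 1) / s + 1) * (39 * y + 3 * s * (1 + Real.log s))) =
        ((y : ℝ) + 1) / s * (39 * y) + ((y : ℝ) + 1) / s * (3 * s * (1 + Real.log s)) + 39 * y +
          3 * s * (1 + Real.log s) := by ring
    rw [hexp]
    have hfin : 400 * W ≤ (y : ℝ) ^ 2 / L ^ (A + 5) := by
      have e : (y : ℝ) ^ 2 / L ^ (A + 5) = W * L ^ 2 := by
        rw [hW, pow_add L A 7, pow_add L A 5]
        field_simp
      rw [e, mul_comm]
      apply mul_le_mul_of_nonneg_left _ hW0.le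
      nlinarith
    linarith

end Pool.Agent.V5helper51.CM
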