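import Pool.Agent.V5helper51.CM.Circ
import Pool.Agent.V5helper51.CR6.Stm
import Pool.Agent.R460.SQ.Model

/-!
# The windows for the difference of the von Mangoldt function and the sieve model
-/

set_option autoImplicit false

namespace Pool.Agent.V5helper51.CM

open Finset
open Pool.Agent.H807R2.Dav (ee norm_ee)
open Pool.Agent.H469R2.NK (e)
open Pool.Agent.H373R2.T7 (lamz Vz)
open Pool.Agent.R460.SQ (DZ bd_DZ)
open Pool.Agent.Q236.CR (S_LZ cc)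
open Pool.Agent.V5helper51.CR6 (SIAt)
open Pool.Agent.Y614.GJ.Core (ev_log)

lemma e_ee (x : ℝ) : e x = ee x := by
  rw [Pool.Agent.H807R2.Dav.ee_eq]
  rfl

lemma Bw_le {G : ℕ → ℂ} {N Y : ℕ} {A : ℝ} (hG : ∀ l ∈ Icc 1 N, ‖G l‖ ≤ A) (hA : 0 ≤ A) (r : ℝ) (m : ℕ) :
    ‖Bw G N Y r m‖ ≤ Y * A := by
  unfold Bw
  refine (norm_sum_le _ _).trans ?_
  refine (sum_le_sum (g := fun _ => A) fun l hl => ?_).trans ?_
  · rw [norm_mul, norm_ee, mul_one]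
    exact hG l (mem_filter.1 hl).1
  · rw [sum_const, nsmul_eq_mul]
    refine mul_le_mul_of_nonneg_right ?_ hA
    have h1 : (Icc 1 N).filter (fun l => l ≤ m ∧ m < l + Y) ⊆ Ioc (m - Y) m := by
      intro l hl
      rw [mem_filter, mem_Icc] at hl
      rw [mem_Ioc]
      omega
    have h2 := card_le_card h1
    rw [Nat.card_Ioc] at h2
    exact_mod_cast (by omega : ((Icc 1 N).filter (fun l => l ≤ m ∧ m < l + Y)).card ≤ Y)

lemma Bw_full (G : ℕ → ℂ) {N Y m' : ℕ} (h : m' + Y ≤ N) (a q : ℕ) :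
    Bw G N Y ((a : ℝ) / q) (m' + Y) = ∑ n ∈ Ioc m' (m' + Y), G n * e ((a : ℝ) * n / q) := by
  unfold Bw
  have h1 : (Icc 1 N).filter (fun l => l ≤ m' + Y ∧ m' + Y < l + Y) = Ioc m' (m' + Y) := by
    ext l
    rw [mem_filter, mem_Icc, mem_Ioc]
    omega
  rw [h1]
  refine sum_congr rfl fun n _ => ?_
  rw [e_ee]
  congr 2
  ring

lemma dyad (f : ℕ → ℝ) (i0 i1 : ℕ) (hi : i0 ≤ i1) :
    ∑ m ∈ Ioc (2 ^ i0) (2 ^ i1), f m = ∑ i ∈ Ico i0 i1, ∑ m ∈ Ioc (2 ^ i) (2 * 2 ^ i), f m := by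
  induction i1, hi using Nat.le_induction with
  | base => simp
  | succ i hi ih =>
    rw [sum_Ico_succ_top hi, ← ih, pow_succ, mul_comm (2 ^ i) 2]
    rw [sum_Ioc_consecutive f (Nat.pow_le_pow_right (by norm_num) hi) (by omega)]

/-- windows of the difference of the von Mangoldt function and the sieve model -/
theorem win_dz {θ : ℝ} (hθ : 1 / 8 ≤ θ) (hS : SIAt θ) (hLZ : S_LZ) (B U : ℕ) :
    ∃ C K : ℕ, ∀ E : ℕ, ∃ N₀ : ℕ, ∀ N : ℕ, N₀ ≤ N → ∀ z q : ℕ, 1 ≤ q → (q : ℝ) ≤ Real.log N ^ B → q ≤ z →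
      (z : ℝ) ≤ Real.log N ^ E → (Vz z)⁻¹ ≤ Real.log N → ∀ a Y : ℕ, (N : ℝ) ^ θ * Real.log N ^ C ≤ Y →
      (Y : ℝ) * Real.log N ^ K ≤ N →
      ∑ m ∈ range (N + Y), ‖Bw (DZ z) N Y ((a : ℝ) / q) m‖ ^ 2 ≤ N * (Y : ℝ) ^ 2 / Real.log N ^ U := by
  obtain ⟨C, X₁, h1⟩ := hS (2 * B) (2 * (U + 1))
  obtain ⟨K, hK⟩ : ∃ K, K = U + 8 := ⟨_, rfl⟩
  refine ⟨C, K + 2, fun E => ?_⟩
  obtain ⟨X₂, h2⟩ := hLZ (2 * B) (2 * E) (2 * (U + 1))
  obtain ⟨N₁, h3⟩ := Filter.eventually_atTop.1 (ev_log (K + 2) (s := 1 / 4) (by norm_num) (100 + (X₁ : ℝ) + X₂))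
  refine ⟨N₁ + 1, fun N hN z q hq1 hqB hqz hzE hV a Y hY1 hY2 => ?_⟩
  obtain ⟨hLb, hLp⟩ := h3 N (by omega)
  have hN1 : 1 ≤ N := by omega
  have hN0 : (0 : ℝ) < N := by exact_mod_cast hN1
  have hN1r : (1 : ℝ) ≤ N := by exact_mod_cast hN1
  obtain ⟨L, hL⟩ : ∃ L, L = Real.log (N : ℝ) := ⟨_, rfl⟩
  have hX1r : (0 : ℝ) ≤ X₁ := Nat.cast_nonneg _
  have hX2r : (0 : ℝ) ≤ X₂ := Nat.cast_nonneg _
  have hbd : ∀ l ∈ Icc 1 N, ‖DZ z l‖ ≤ Real.log N ^ 2 := fun l hl => bd_DZ hV (by linarith) hl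
  rw [← hL] at hLb hLp hqB hzE hV hY1 hY2 hbd ⊢
  have hL100 : 100 ≤ L := by linarith
  have hL0 : 0 < L := by linarith
  have hL1 : 1 ≤ L := by linarith
  have hY0 : (0 : ℝ) ≤ Y := Nat.cast_nonneg _
  have hYpos : 1 ≤ Y := by
    have k1 : (0 : ℝ) < (N : ℝ) ^ θ * L ^ C := by positivity
    have k2 : (0 : ℝ) < Y := by linarith
    exact_mod_cast k2
  -- the cut
  obtain ⟨i0, hi0⟩ : ∃ i0, i0 = Nat.log 2 ⌊(N : ℝ) / L ^ K⌋₊ := ⟨_, rfl⟩
  have hNK : (N : ℝ) ^ (3 / 4 : ℝ) ≤ (N : ℝ) / L ^ (K + 2) := by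
    rw [le_div_iff₀ (by positivity)]
    calc (N : ℝ) ^ (3 / 4 : ℝ) * L ^ (K + 2) ≤ (N : ℝ) ^ (3 / 4 : ℝ) * (N : ℝ) ^ (1 / 4 : ℝ) := by gcongr
      _ = N := by
          rw [← Real.rpow_add hN0]
          norm_num
  have hN34 : (1 : ℝ) ≤ (N : ℝ) ^ (3 / 4 : ℝ) := Real.one_le_rpow hN1r (by norm_num)
  have hNKK : (N : ℝ) / L ^ (K + 2) ≤ N / L ^ K / 4 := by
    rw [div_div]
    apply div_le_div_of_nonneg_left hN0.le (by positivity)
    have : L ^ (K + 2) = L ^ K * L ^ 2 := pow_add _ _ _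
    rw [this]
    apply mul_le_mul_of_nonneg_left _ (by positivity)
    nlinarith
  have hfl1 : 1 ≤ ⌊(N : ℝ) / L ^ K⌋₊ := by
    rw [Nat.one_le_floor_iff]
    linarith
  have hx0a : 2 ^ i0 ≤ ⌊(N : ℝ) / L ^ K⌋₊ := by
    rw [hi0]
    exact Nat.pow_log_le_self 2 (by omega)
  have hx0b : ⌊(N : ℝ) / L ^ K⌋₊ < 2 * 2 ^ i0 := by
    rw [hi0, ← pow_succ']
    exact Nat.lt_pow_succ_log_self (by norm_num) _
  have hx0c : ((2 ^ i0 : ℕ) : ℝ) ≤ N / L ^ K :=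
    le_trans (by exact_mod_cast hx0a) (Nat.floor_le (by positivity))
  have hx0d : (N : ℝ) / L ^ (K + 2) ≤ ((2 ^ i0 : ℕ) : ℝ) := by
    have k1 : (N : ℝ) / L ^ K < ⌊(N : ℝ) / L ^ K⌋₊ + 1 := Nat.lt_floor_add_one _
    have k2 : ((⌊(N : ℝ) / L ^ K⌋₊ + 1 : ℕ) : ℝ) ≤ ((2 * 2 ^ i0 : ℕ) : ℝ) := by exact_mod_cast hx0b
    push_cast at k2 ⊢
    have k3 : 0 ≤ (N : ℝ) / L ^ K := by positivity
    linarith
  obtain ⟨i1, hi1⟩ : ∃ i1, i1 = Nat.log 2 N + 1 := ⟨_, rfl⟩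
  have hi1a : N ≤ 2 ^ i1 := by
    rw [hi1]
    exact (Nat.lt_pow_succ_log_self (by norm_num) _).le
  have hi1b : 2 ^ i1 ≤ 2 * N := by
    rw [hi1, pow_succ']
    exact Nat.mul_le_mul_left _ (Nat.pow_log_le_self 2 (by omega))
  have hfN : ⌊(N : ℝ) / L ^ K⌋₊ ≤ N := by
    apply Nat.floor_le_of_le
    rw [div_le_iff₀ (by positivity)]
    exact le_mul_of_one_le_right hN0.le (one_le_pow₀ hL1)
  have hi01 : i0 ≤ i1 := by
    rw [hi0, hi1]
    exact (Nat.log_mono_right hfN).trans (by omega)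
  -- the windows
  obtain ⟨f, hf⟩ : ∃ f : ℕ → ℝ, f = fun m => ‖∑ n ∈ Ioc m (m + Y), DZ z n * e ((a : ℝ) * n / q)‖ ^ 2 := ⟨_, rfl⟩
  have hf0 : ∀ m, 0 ≤ f m := fun m => by rw [hf]; exact sq_nonneg _
  -- one dyadic range
  have hone : ∀ i ∈ Ico i0 i1, ∑ m ∈ Ioc (2 ^ i) (2 * 2 ^ i), f m ≤
      4 * ((2 ^ i : ℕ) : ℝ) * (Y : ℝ) ^ 2 / L ^ (U + 1) := by
    intro i hi
    rw [mem_Ico] at hi
    obtain ⟨x, hx⟩ : ∃ x : ℕ, x = 2 ^ i := ⟨_, rfl⟩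
    rw [← hx]
    have hxlo : (N : ℝ) / L ^ (K + 2) ≤ x := by
      refine hx0d.trans ?_
      rw [hx]
      exact_mod_cast Nat.pow_le_pow_right (by norm_num) hi.1
    have hx34 : (N : ℝ) ^ (3 / 4 : ℝ) ≤ x := hNK.trans hxlo
    have hxN : x ≤ N := by
      rw [hx]
      refine (Nat.pow_le_pow_right (by norm_num) (by omega : i ≤ Nat.log 2 N)).trans ?_
      exact Nat.pow_log_le_self 2 (by omega)
    have hxNr : (x : ℝ) ≤ N := by exact_mod_cast hxN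
    have hx0 : (0 : ℝ) < x := by linarith
    obtain ⟨l, hl⟩ : ∃ l, l = Real.log (x : ℝ) := ⟨_, rfl⟩
    have hlL : l ≤ L := by
      rw [hl, hL]
      exact Real.log_le_log hx0 hxNr
    have hl34 : 3 / 4 * L ≤ l := by
      have := Real.log_le_log (by positivity) hx34
      rw [Real.log_rpow hN0, ← hL, ← hl] at this
      exact this
    have hl75 : 75 ≤ l := by linarith
    have hl0 : 0 < l := by linarith
    have hLl2 : L ≤ l ^ 2 := by nlinarith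
    have hpow : ∀ k : ℕ, L ^ k ≤ l ^ (2 * k) := by
      intro k
      rw [pow_mul]
      exact pow_le_pow_left₀ hL0.le hLl2 k
    have hxX : (X₁ : ℝ) + X₂ ≤ x := by
      have k1 : l ≤ x := by
        rw [hl]
        exact (Real.log_le_sub_one_of_pos hx0).trans (by linarith)
      have k2 : L ≤ (N : ℝ) ^ (3 / 4 : ℝ) := by
        have k3 : L ≤ L ^ (K + 2) := le_self_pow₀ hL1 (by omega)
        have k4 : (N : ℝ) ^ (1 / 4 : ℝ) ≤ (N : ℝ) ^ (3 / 4 : ℝ) :=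
          Real.rpow_le_rpow_of_exponent_le hN1r (by norm_num)
        linarith
      linarith
    have hxX1 : X₁ ≤ x := by
      have : (X₁ : ℝ) ≤ x := by linarith
      exact_mod_cast this
    have hxX2 : X₂ ≤ x := by
      have : (X₂ : ℝ) ≤ x := by linarith
      exact_mod_cast this
    have hqx : (q : ℝ) ≤ l ^ (2 * B) := hqB.trans (hpow B)
    have hzx : (z : ℝ) ≤ l ^ (2 * E) := hzE.trans (hpow E)
    have hθ0 : 0 ≤ θ := by linarith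
    have hYx1 : (x : ℝ) ^ θ * l ^ C ≤ Y := by
      refine le_trans ?_ hY1
      gcongr
    have hYx2 : Y ≤ x := by
      have : (Y : ℝ) ≤ x := by
        refine le_trans ?_ hxlo
        rw [le_div_iff₀ (by positivity)]
        exact hY2
      exact_mod_cast this
    have hYx3 : (x : ℝ) ^ (1 / 8 : ℝ) ≤ Y := by
      have hx1 : (1 : ℝ) ≤ x := by linarith
      have k1 : (x : ℝ) ^ (1 / 8 : ℝ) ≤ (x : ℝ) ^ θ := Real.rpow_le_rpow_of_exponent_le hx1 hθ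
      have k2 : (x : ℝ) ^ θ ≤ (x : ℝ) ^ θ * l ^ C :=
        le_mul_of_one_le_right (by positivity) (one_le_pow₀ (by linarith))
      linarith
    rw [hl] at hqx hzx hYx1
    have r1 := (h1 x hxX1 q hq1 hqx a Y hYx1 hYx2).1
    rw [← hl] at r1
    have r2 := fun m : ℕ => h2 x hxX2 z q hq1 hqx hqz hzx a m Y hYx3
    rw [← hl] at r2
    have hU1 : L ^ (U + 1) ≤ l ^ (2 * (U + 1)) := hpow (U + 1)
    have hpt : ∀ m ∈ Ioc x (2 * x), f m ≤ 2 * ‖∑ n ∈ Ioc m (m + Y),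
        (ArithmeticFunction.vonMangoldt n : ℂ) * e ((a : ℝ) * n / q) - cc q a * Y‖ ^ 2 +
        2 * (Y / L ^ (U + 1)) ^ 2 := by
      intro m _
      have k1 : ∑ n ∈ Ioc m (m + Y), DZ z n * e ((a : ℝ) * n / q) =
          (∑ n ∈ Ioc m (m + Y), (ArithmeticFunction.vonMangoldt n : ℂ) * e ((a : ℝ) * n / q) - cc q a * Y) -
          (∑ n ∈ Ioc m (m + Y), (lamz z n : ℂ) * e ((a : ℝ) * n / q) - cc q a * Y) := by
        rw [sub_sub_sub_cancel_right, ← sum_sub_distrib]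
        refine sum_congr rfl fun n _ => ?_
        unfold DZ
        push_cast
        ring
      have k2 : ‖∑ n ∈ Ioc m (m + Y), (lamz z n : ℂ) * e ((a : ℝ) * n / q) - cc q a * Y‖ ≤ Y / L ^ (U + 1) := by
        refine (r2 m).trans ?_
        exact div_le_div_of_nonneg_left hY0 (by positivity) hU1
      rw [hf]
      simp only
      rw [k1]
      have k3 : ∀ u w : ℂ, ‖u - w‖ ^ 2 ≤ 2 * ‖u‖ ^ 2 + 2 * ‖w‖ ^ 2 := by
        intro u w
        have k4 := norm_sub_le u w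
        have k5 : ‖u - w‖ ^ 2 ≤ (‖u‖ + ‖w‖) ^ 2 := pow_le_pow_left₀ (norm_nonneg _) k4 2
        nlinarith [sq_nonneg (‖u‖ - ‖w‖)]
      refine (k3 _ _).trans ?_
      have k6 := pow_le_pow_left₀ (norm_nonneg _) k2 2
      linarith
    refine (sum_le_sum hpt).trans ?_
    rw [sum_add_distrib, ← mul_sum, sum_const, Nat.card_Ioc, nsmul_eq_mul]
    have hcx : (((2 * x - x : ℕ)) : ℝ) = x := by
      have : 2 * x - x = x := by omega
      rw [this]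
    rw [hcx]
    have r3 : ∑ m ∈ Ioc x (2 * x), ‖∑ n ∈ Ioc m (m + Y),
        (ArithmeticFunction.vonMangoldt n : ℂ) * e ((a : ℝ) * n / q) - cc q a * Y‖ ^ 2 ≤
        x * (Y : ℝ) ^ 2 / L ^ (U + 1) := by
      refine r1.trans ?_
      exact div_le_div_of_nonneg_left (by positivity) (by positivity) hU1
    have r4 : (x : ℝ) * (2 * (Y / L ^ (U + 1)) ^ 2) ≤ 2 * (x * (Y : ℝ) ^ 2 / L ^ (U + 1)) := by
      have k1 : ((Y : ℝ) / L ^ (U + 1)) ^ 2 ≤ (Y : ℝ) ^ 2 / L ^ (U + 1) := by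
        rw [div_pow]
        apply div_le_div_of_nonneg_left (by positivity) (by positivity)
        exact le_self_pow₀ (one_le_pow₀ hL1) (by norm_num)
      calc (x : ℝ) * (2 * (Y / L ^ (U + 1)) ^ 2) ≤ (x : ℝ) * (2 * ((Y : ℝ) ^ 2 / L ^ (U + 1))) := by gcongr
        _ = _ := by ring
    have r5 : 4 * (x : ℝ) * (Y : ℝ) ^ 2 / L ^ (U + 1) = 4 * (x * (Y : ℝ) ^ 2 / L ^ (U + 1)) := by ring
    rw [r5]
    linarith
  -- all the long ranges
  have hall : ∑ m ∈ Ioc (2 ^ i0) N, f m ≤ 8 * N * (Y : ℝ) ^ 2 / L ^ (U + 1) := by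
    have k1 : ∑ m ∈ Ioc (2 ^ i0) N, f m ≤ ∑ m ∈ Ioc (2 ^ i0) (2 ^ i1), f m :=
      sum_le_sum_of_subset_of_nonneg (Ioc_subset_Ioc_right hi1a) fun m _ _ => hf0 m
    refine k1.trans ?_
    rw [dyad f i0 i1 hi01]
    refine (sum_le_sum hone).trans ?_
    have k2 : ∑ i ∈ Ico i0 i1, 4 * ((2 ^ i : ℕ) : ℝ) * (Y : ℝ) ^ 2 / L ^ (U + 1) =
        4 * (Y : ℝ) ^ 2 / L ^ (U + 1) * ((∑ i ∈ Ico i0 i1, 2 ^ i : ℕ) : ℝ) := by
      push_cast
      rw [mul_sum]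
      refine sum_congr rfl fun i _ => ?_
      ring
    rw [k2]
    have k3 : ∑ i ∈ Ico i0 i1, 2 ^ i ≤ 2 * N := by
      have k4 : ∑ i ∈ Ico i0 i1, 2 ^ i ≤ ∑ i ∈ range i1, 2 ^ i := by
        apply sum_le_sum_of_subset
        intro i hi
        rw [mem_Ico] at hi
        exact mem_range.2 hi.2
      have k5 := Nat.geomSum_lt (m := 2) (n := i1) (s := range i1) (by norm_num) (fun k hk => mem_range.1 hk)
      omega
    have k6 : ((∑ i ∈ Ico i0 i1, 2 ^ i : ℕ) : ℝ) ≤ 2 * N := by exact_mod_cast k3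
    calc 4 * (Y : ℝ) ^ 2 / L ^ (U + 1) * ((∑ i ∈ Ico i0 i1, 2 ^ i : ℕ) : ℝ)
        ≤ 4 * (Y : ℝ) ^ 2 / L ^ (U + 1) * (2 * N) := by gcongr
      _ = _ := by ring
  -- the whole
  have hbb : ∀ m, ‖Bw (DZ z) N Y ((a : ℝ) / q) m‖ ^ 2 ≤ (Y * L ^ 2) ^ 2 := fun m =>
    pow_le_pow_left₀ (norm_nonneg _) (Bw_le hbd (by positivity) _ _) 2
  have hsplit : ∑ m ∈ range (N + Y), ‖Bw (DZ z) N Y ((a : ℝ) / q) m‖ ^ 2 ≤
      ((2 ^ i0 + 2 * Y + 1 : ℕ) : ℝ) * (Y * L ^ 2) ^ 2 + ∑ m ∈ Ioc (2 ^ i0) N, f m := by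
    rw [← sum_filter_add_sum_filter_not (range (N + Y)) (fun m => m ≤ 2 ^ i0 + Y ∨ N < m)]
    refine add_le_add ?_ ?_
    · refine (sum_le_sum fun m _ => hbb m).trans ?_
      rw [sum_const, nsmul_eq_mul]
      refine mul_le_mul_of_nonneg_right ?_ (by positivity)
      have k1 : (range (N + Y)).filter (fun m => m ≤ 2 ^ i0 + Y ∨ N < m) ⊆
          range (2 ^ i0 + Y + 1) ∪ Ico (N + 1) (N + Y) := by
        intro m hm
        rw [mem_filter, mem_range] at hm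
        rw [mem_union, mem_range, mem_Ico]
        omega
      have k2 := (card_le_card k1).trans (card_union_le _ _)
      rw [card_range, Nat.card_Ico] at k2
      exact_mod_cast (by omega : ((range (N + Y)).filter (fun m => m ≤ 2 ^ i0 + Y ∨ N < m)).card ≤ 2 ^ i0 + 2 * Y + 1)
    · have k1 : ∑ m ∈ Ioc (2 ^ i0) (N - Y), f m =
          ∑ m ∈ (range (N + Y)).filter (fun m => ¬ (m ≤ 2 ^ i0 + Y ∨ N < m)),
            ‖Bw (DZ z) N Y ((a : ℝ) / q) m‖ ^ 2 := by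
        refine sum_nbij (fun m => m + Y) ?_ ?_ ?_ ?_
        · intro m hm
          rw [mem_Ioc] at hm
          show m + Y ∈ _
          rw [mem_filter, mem_range]
          omega
        · intro m _ m' _ h
          simpa using h
        · intro m hm
          rw [mem_coe, mem_filter, mem_range] at hm
          refine ⟨m - Y, ?_, ?_⟩
          · rw [mem_coe, mem_Ioc]
            omega
          · simp only
            omega
        · intro m hm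
          rw [mem_Ioc] at hm
          rw [Bw_full _ (by omega) a q, hf]
      rw [← k1]
      exact sum_le_sum_of_subset_of_nonneg (Ioc_subset_Ioc_right (by omega)) fun m _ _ => hf0 m
  refine hsplit.trans ?_
  have hYK : (Y : ℝ) ≤ N / L ^ K := by
    rw [le_div_iff₀ (by positivity)]
    refine le_trans ?_ hY2
    apply mul_le_mul_of_nonneg_left _ hY0
    exact pow_le_pow_right₀ hL1 (by omega)
  have h1NK : 1 ≤ (N : ℝ) / L ^ K := by
    have : 0 ≤ (N : ℝ) / L ^ K := by positivity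
    linarith
  have e1 : ((2 ^ i0 + 2 * Y + 1 : ℕ) : ℝ) ≤ 4 * (N / L ^ K) := by
    push_cast at hx0c ⊢
    linarith
  have e2 : ((2 ^ i0 + 2 * Y + 1 : ℕ) : ℝ) * (Y * L ^ 2) ^ 2 ≤ 4 * (N * (Y : ℝ) ^ 2 / L ^ (U + 4)) := by
    calc ((2 ^ i0 + 2 * Y + 1 : ℕ) : ℝ) * (Y * L ^ 2) ^ 2 ≤ 4 * (N / L ^ K) * (Y * L ^ 2) ^ 2 := by gcongr
      _ = 4 * (N * (Y : ℝ) ^ 2 / L ^ (U + 4)) := by
          rw [hK, show U + 8 = (U + 4) + 4 by ring, pow_add L (U + 4) 4]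
          field_simp
  have e3 : 4 * (N * (Y : ℝ) ^ 2 / L ^ (U + 4)) ≤ N * (Y : ℝ) ^ 2 / L ^ U / 2 := by
    rw [pow_add, ← div_div, div_eq_mul_inv (_ / L ^ U) 2, div_eq_mul_inv _ (L ^ 4)]
    have : (L ^ 4)⁻¹ ≤ 1 / 8 := by
      rw [← one_div]
      apply one_div_le_one_div_of_le (by norm_num)
      have : L ≤ L ^ 4 := le_self_pow₀ hL1 (by norm_num)
      linarith
    have k0 : 0 ≤ N * (Y : ℝ) ^ 2 / L ^ U := by positivity
    nlinarith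
  have e4 : 8 * N * (Y : ℝ) ^ 2 / L ^ (U + 1) ≤ N * (Y : ℝ) ^ 2 / L ^ U / 2 := by
    rw [pow_succ L U, ← div_div, mul_assoc 8, mul_div_assoc 8, div_le_iff₀ hL0]
    have k0 : 0 ≤ N * (Y : ℝ) ^ 2 / L ^ U := by positivity
    nlinarith
  linarith

end Pool.Agent.V5helper51.CM
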